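import Pool.Agent.Lib.MP_045051_co.Quad.Vand

/-!
Choice of the first and third order terms.
-/

set_option autoImplicit false

open scoped BigOperators ComplexConjugate

namespace Pool.Agent.Lib.MP_045051_co.Quad

/-- relations between four unit complex numbers -/
def IsRel (z : Fin 4 → ℂ) (k : Fin 4 → ℤ) : Prop := ∑ j, k j = 0 ∧ ∏ j, z j ^ k j = 1

/-- the hypothesis of genericity -/
def Generic (z : Fin 4 → ℂ) : Prop :=
  ∀ k : Fin 4 → ℤ, IsRel z k → k = 0 ∨ (z 0 * z 1 = z 2 * z 3 ∧ k 0 = k 1 ∧ k 2 = k 3)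

theorem normSq_one {a : ℂ} (ha : ‖a‖ = 1) : a.re ^ 2 + a.im ^ 2 = 1 := by
  have := Complex.normSq_eq_norm_sq a
  rw [ha, Complex.normSq_apply] at this
  nlinarith

theorem re_sq {a : ℂ} (ha : ‖a‖ = 1) : a.re ^ 2 = 1 / 2 + (a ^ 2).re / 2 := by
  have h := normSq_one ha
  have : (a ^ 2).re = a.re ^ 2 - a.im ^ 2 := by
    rw [sq, Complex.mul_re]
    ring
  rw [this]
  linarith

theorem re_cube {a : ℂ} (ha : ‖a‖ = 1) : a.re ^ 3 = 3 / 4 * a.re + (a ^ 3).re / 4 := by
  have h := normSq_one ha
  have : (a ^ 3).re = a.re ^ 3 - 3 * a.re * a.im ^ 2 := by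
    rw [pow_succ, sq, Complex.mul_re, Complex.mul_re, Complex.mul_im]
    ring
  rw [this]
  have h2 : a.im ^ 2 = 1 - a.re ^ 2 := by linarith
  rw [h2]
  ring

theorem z_ne_zero {z : ℂ} (hz : ‖z‖ = 1) : z ≠ 0 := by
  intro h
  rw [h, norm_zero] at hz
  exact zero_ne_one hz

theorem e1_ne (z : Fin 4 → ℂ) (hz : ∀ j, ‖z j‖ = 1) (H : Generic z) : ∑ j, z j ≠ 0 := by
  intro he
  have hp : ∀ j, z j * conj (z j) = 1 := fun j => mul_conj_one (hz j)
  have he' : ∑ j, conj (z j) = 0 := by rw [← map_sum, he, map_zero]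
  have p0 := hp 0
  have p1 := hp 1
  have p2 := hp 2
  have p3 := hp 3
  have n0 := z_ne_zero (hz 0)
  have n1 := z_ne_zero (hz 1)
  have n2 := z_ne_zero (hz 2)
  have n3 := z_ne_zero (hz 3)
  simp only [Fin.sum_univ_four] at he he'
  have key : (z 0 + z 1) * (z 0 + z 2) * (z 0 + z 3) = 0 := by
    linear_combination z 0 ^ 2 * he + z 0 * z 1 * z 2 * z 3 * he' - z 1 * z 2 * z 3 * p0 -
      z 0 * z 2 * z 3 * p1 - z 0 * z 1 * z 3 * p2 - z 0 * z 1 * z 2 * p3
  rcases mul_eq_zero.1 key with h | h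
  · rcases mul_eq_zero.1 h with h | h
    · have h1 : z 0 = - z 1 := by linear_combination h
      rcases H ![2, -2, 0, 0] ⟨by simp [Fin.sum_univ_four], by
        rw [Fin.prod_univ_four]
        simp only [Matrix.cons_val_zero, Matrix.cons_val_one, Matrix.cons_val]
        rw [h1, zpow_neg]
        field_simp⟩ with hk | ⟨_, hk, _⟩
      · have := congrFun hk 0
        simp at this
      · simp at hk
    · have h1 : z 0 = - z 2 := by linear_combination h
      rcases H ![2, 0, -2, 0] ⟨by simp [Fin.sum_univ_four], by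
        rw [Fin.prod_univ_four]
        simp only [Matrix.cons_val_zero, Matrix.cons_val_one, Matrix.cons_val]
        rw [h1, zpow_neg]
        field_simp⟩ with hk | ⟨_, hk, _⟩
      · have := congrFun hk 0
        simp at this
      · simp at hk
  · have h1 : z 0 = - z 3 := by linear_combination h
    rcases H ![2, 0, 0, -2] ⟨by simp [Fin.sum_univ_four], by
      rw [Fin.prod_univ_four]
      simp only [Matrix.cons_val_zero, Matrix.cons_val_one, Matrix.cons_val]
      rw [h1, zpow_neg]
      field_simp⟩ with hk | ⟨_, hk, _⟩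
    · have := congrFun hk 0
      simp at this
    · simp at hk

/-- unit square roots -/
theorem exists_sqrt (w : ℂ) (hw : ‖w‖ = 1) : ∃ s : ℂ, ‖s‖ = 1 ∧ s ^ 2 = w := by
  obtain ⟨s, hs⟩ := IsAlgClosed.exists_pow_nat_eq w (n := 2) (by norm_num)
  refine ⟨s, ?_, hs⟩
  have h1 : ‖s‖ ^ 2 = 1 := by rw [← norm_pow, hs, hw]
  nlinarith [norm_nonneg s]

theorem moments (z : Fin 4 → ℂ) (hz : ∀ j, ‖z j‖ = 1) (c : Fin 4 → ℝ) (h0 : ∑ j, c j = 0)
    (h1 : ∑ j, (c j : ℂ) * z j = 0) (s : ℂ) (hs : ‖s‖ = 1) :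
    ∑ j, c j * (s * z j).re = 0 ∧
    ∑ j, c j * (s * z j).re ^ 2 = (s ^ 2 * ∑ j, (c j : ℂ) * z j ^ 2).re / 2 ∧
    ∑ j, c j * (s * z j).re ^ 3 = (s ^ 3 * ∑ j, (c j : ℂ) * z j ^ 3).re / 4 := by
  have hn : ∀ j, ‖s * z j‖ = 1 := fun j => by rw [norm_mul, hs, hz, one_mul]
  have hre : ∀ (m : ℕ), (s ^ m * ∑ j, (c j : ℂ) * z j ^ m).re = ∑ j, c j * ((s * z j) ^ m).re := by
    intro m
    rw [Finset.mul_sum, Complex.re_sum]
    refine Finset.sum_congr rfl fun j _ => ?_
    have : s ^ m * ((c j : ℂ) * z j ^ m) = (c j : ℂ) * (s * z j) ^ m := by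
      rw [mul_pow]
      ring
    rw [this, Complex.re_ofReal_mul]
  have e1 : ∑ j, c j * (s * z j).re = 0 := by
    have := hre 1
    simp only [pow_one] at this
    rw [← this, h1, mul_zero, Complex.zero_re]
  refine ⟨e1, ?_, ?_⟩
  · rw [hre 2]
    have : ∀ j, c j * (s * z j).re ^ 2 = c j / 2 + c j * ((s * z j) ^ 2).re / 2 := fun j => by
      rw [re_sq (hn j)]
      ring
    simp only [this]
    rw [Finset.sum_add_distrib, ← Finset.sum_div, ← Finset.sum_div, h0]
    ring
  · rw [hre 3]
    have : ∀ j, c j * (s * z j).re ^ 3 = 3 / 4 * (c j * (s * z j).re) +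
        c j * ((s * z j) ^ 3).re / 4 := fun j => by
      rw [re_cube (hn j)]
      ring
    simp only [this]
    rw [Finset.sum_add_distrib, ← Finset.mul_sum, ← Finset.sum_div, e1]
    ring

theorem sum_sq_pos (c : Fin 4 → ℝ) (hc : c ≠ 0) : 0 < ∑ j, c j ^ 2 := by
  obtain ⟨i, hi⟩ := Function.ne_iff.1 hc
  have h1 : c i ^ 2 ≤ ∑ j, c j ^ 2 :=
    Finset.single_le_sum (f := fun j => c j ^ 2) (fun j _ => sq_nonneg _) (Finset.mem_univ i)
  have h2 : 0 < c i ^ 2 := by
    have : c i ≠ 0 := hi
    positivity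
  linarith

/-- the choice of the linear term `x` and of the cubic term `y` -/
theorem choice (z : Fin 4 → ℂ) (hz : ∀ j, ‖z j‖ = 1) (hinj : Function.Injective z)
    (H : Generic z) : ∃ c x y : Fin 4 → ℝ, ∑ j, c j = 0 ∧ ∑ j, (c j : ℂ) * z j = 0 ∧
      ∑ j, c j * x j = 0 ∧ ∑ j, c j * x j ^ 2 = 0 ∧ ∑ j, c j * x j ^ 3 ≠ 0 ∧
      ∑ j, c j * y j = (∑ j, c j * x j ^ 3) / 6 ∧
      ∀ k, IsRel z k → ∑ j, (k j : ℝ) * x j = 0 ∧ ∑ j, (k j : ℝ) * y j = 0 := by
  obtain ⟨c, hc, h0, h1⟩ := exists_dep z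
  have hT2 := T2_ne z hz hinj c hc h0 h1
  have hT3 := T3_eq z hz c h0 h1
  have he1 := e1_ne z hz H
  set T2 := ∑ j, (c j : ℂ) * z j ^ 2 with hT2d
  set T3 := ∑ j, (c j : ℂ) * z j ^ 3 with hT3d
  have hT3' : T3 ≠ 0 := by
    rw [hT3]
    exact mul_ne_zero he1 hT2
  have hcc := sum_sq_pos c hc
  have hyy : ∀ S : ℝ, ∑ j, c j * (S / (6 * ∑ i, c i ^ 2) * c j) = S / 6 := by
    intro S
    have : ∀ j, c j * (S / (6 * ∑ i, c i ^ 2) * c j) = S / (6 * ∑ i, c i ^ 2) * c j ^ 2 :=
      fun j => by ring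
    simp only [this]
    rw [← Finset.mul_sum]
    field_simp
  by_cases hz01 : z 0 * z 1 = z 2 * z 3
  · -- trapezoid
    obtain ⟨om, hom, hom2⟩ := exists_sqrt (z 0 * z 1) (by rw [norm_mul, hz, hz, one_mul])
    set s : ℂ := Complex.I * conj om with hs
    have hsn : ‖s‖ = 1 := by
      rw [hs, norm_mul, Complex.norm_I, one_mul, RCLike.norm_conj, hom]
    have hs2 : s ^ 2 * om ^ 2 = -1 := by
      have := mul_conj_one hom
      rw [hs, mul_pow, Complex.I_sq]
      linear_combination (-(om * conj om) - 1) * this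
    obtain ⟨m1, m2, m3⟩ := moments z hz c h0 h1 s hsn
    set a : Fin 4 → ℂ := fun j => s * z j with ha
    have han : ∀ j, ‖a j‖ = 1 := fun j => by
      simp only [ha]
      rw [norm_mul, hsn, hz, one_mul]
    have ha01 : a 0 * a 1 = -1 := by
      simp only [ha]
      rw [← hs2, hom2]
      ring
    have ha23 : a 2 * a 3 = -1 := by
      simp only [ha]
      rw [← hs2, hom2, hz01]
      ring
    have ha1 : a 1 = - conj (a 0) := by
      have := mul_conj_one (han 0)
      linear_combination conj (a 0) * ha01 - a 1 * this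
    have ha3 : a 3 = - conj (a 2) := by
      have := mul_conj_one (han 2)
      linear_combination conj (a 2) * ha23 - a 3 * this
    have hre1 : (a 1).re = - (a 0).re := by rw [ha1]; simp
    have him1 : (a 1).im = (a 0).im := by rw [ha1]; simp
    have hre3 : (a 3).re = - (a 2).re := by rw [ha3]; simp
    have him3 : (a 3).im = (a 2).im := by rw [ha3]; simp
    have hca : ∑ j, (c j : ℂ) * a j = 0 := by
      have : ∀ j, (c j : ℂ) * a j = s * ((c j : ℂ) * z j) := fun j => by
        simp only [ha]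
        ring
      simp only [this]
      rw [← Finset.mul_sum, h1, mul_zero]
    have hinja : ∀ i j, a i = a j → i = j := by
      intro i j hij
      apply hinj
      simp only [ha] at hij
      exact mul_left_cancel₀ (z_ne_zero hsn) hij
    have him : (c 0 + c 1) * (a 0).im + (c 2 + c 3) * (a 2).im = 0 := by
      have := congrArg Complex.im hca
      simp only [Fin.sum_univ_four, Complex.add_im, Complex.im_ofReal_mul, Complex.zero_im] at this
      rw [him1, him3] at this
      linarith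
    have h0' : (c 0 + c 1) + (c 2 + c 3) = 0 := by
      rw [Fin.sum_univ_four] at h0
      linarith
    have hc01 : c 0 + c 1 = 0 := by
      have h2 : (c 0 + c 1) * ((a 0).im - (a 2).im) = 0 := by
        have : c 2 + c 3 = -(c 0 + c 1) := by linarith
        rw [this] at him
        linarith
      rcases mul_eq_zero.1 h2 with h | h
      · exact h
      · exfalso
        have hi : (a 0).im = (a 2).im := by linarith
        have n0 := normSq_one (han 0)
        have n2 := normSq_one (han 2)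
        rw [hi] at n0
        have h3 : ((a 0).re - (a 2).re) * ((a 0).re + (a 2).re) = 0 := by nlinarith
        rcases mul_eq_zero.1 h3 with h | h
        · have := hinja 0 2 (Complex.ext (by linarith) hi)
          exact absurd this (by decide)
        · have := hinja 0 3 (Complex.ext (by rw [hre3]; linarith) (by rw [him3]; exact hi))
          exact absurd this (by decide)
    have hc23 : c 2 + c 3 = 0 := by linarith
    have hc1 : c 1 = - c 0 := by linarith
    have hc3 : c 3 = - c 2 := by linarith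
    have hsT2 : s ^ 2 * T2 = ∑ j, (c j : ℂ) * a j ^ 2 := by
      rw [hT2d, Finset.mul_sum]
      refine Finset.sum_congr rfl fun j _ => ?_
      simp only [ha]
      ring
    have hse : s * (∑ j, z j) = ∑ j, a j := by
      rw [Finset.mul_sum]
    have hreT2 : (s ^ 2 * T2).re = 0 := by
      rw [hsT2, Complex.re_sum]
      simp only [Fin.sum_univ_four, Complex.re_ofReal_mul]
      have hsq : ∀ w : ℂ, (w ^ 2).re = w.re ^ 2 - w.im ^ 2 := fun w => by
        rw [sq, Complex.mul_re]
        ring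
      rw [hsq, hsq, hsq, hsq, hre1, him1, hre3, him3, hc1, hc3]
      ring
    have hree : (∑ j, a j).re = 0 := by
      rw [Complex.re_sum]
      simp only [Fin.sum_univ_four]
      rw [hre1, hre3]
      ring
    have hreT3 : (s ^ 3 * T3).re ≠ 0 := by
      have e : s ^ 3 * T3 = (∑ j, a j) * (s ^ 2 * T2) := by
        rw [hT3, ← hse]
        ring
      have hne : s ^ 3 * T3 ≠ 0 := mul_ne_zero (pow_ne_zero _ (z_ne_zero hsn)) hT3'
      have him : (s ^ 3 * T3).im = 0 := by
        rw [e, Complex.mul_im, hree, hreT2]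
        ring
      intro hre
      exact hne (Complex.ext hre him)
    refine ⟨c, fun j => (a j).re, fun j => (∑ j, c j * (a j).re ^ 3) / (6 * ∑ i, c i ^ 2) * c j,
      h0, h1, m1, ?_, ?_, hyy _, ?_⟩
    · rw [m2, hreT2]
      norm_num
    · rw [m3]
      intro h
      apply hreT3
      linarith
    · intro k hk
      have hk0 := hk.1
      rw [Fin.sum_univ_four] at hk0
      rcases H k hk with rfl | ⟨_, hk1, hk2⟩
      · simp
      · have hk3 : k 2 = - k 0 := by omega
        have hk4 : k 1 = k 0 := hk1.symm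
        have hk5 : k 3 = - k 0 := by omega
        simp only [Fin.sum_univ_four]
        rw [hk3, hk4, hk5, hre1, hre3, hc1, hc3]
        push_cast
        constructor <;> ring
  · -- generic
    have hk0 : ∀ k, IsRel z k → k = 0 := by
      intro k hk
      rcases H k hk with h | ⟨h, _⟩
      · exact h
      · exact absurd h hz01
    obtain ⟨s, hsn, hre2, hre3⟩ : ∃ s : ℂ, ‖s‖ = 1 ∧ (s ^ 2 * T2).re = 0 ∧
        (s ^ 3 * T3).re ≠ 0 := by
      have hT2n : 0 < ‖T2‖ := norm_pos_iff.2 hT2
      obtain ⟨s, hs, hs2⟩ := exists_sqrt (Complex.I * conj T2 / ‖T2‖) (by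
        rw [norm_div, norm_mul, Complex.norm_I, one_mul, RCLike.norm_conj, Complex.norm_real,
          norm_norm, div_self hT2n.ne'])
      have hsT : s ^ 2 * T2 = Complex.I * ‖T2‖ := by
        rw [hs2]
        have h3 : T2 * conj T2 = (‖T2‖ : ℂ) ^ 2 := by
          rw [Complex.mul_conj, Complex.normSq_eq_norm_sq]
          push_cast
          rfl
        have h4 : (‖T2‖ : ℂ) ≠ 0 := by exact_mod_cast hT2n.ne'
        field_simp
        linear_combination h3
      have hre2 : (s ^ 2 * T2).re = 0 := by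
        rw [hsT, Complex.mul_re]
        simp
      by_cases h3 : (s ^ 3 * T3).re = 0
      · refine ⟨Complex.I * s, by rw [norm_mul, Complex.norm_I, one_mul, hs], ?_, ?_⟩
        · have : (Complex.I * s) ^ 2 * T2 = -(s ^ 2 * T2) := by
            rw [mul_pow, Complex.I_sq]
            ring
          rw [this, Complex.neg_re, hre2, neg_zero]
        · have : (Complex.I * s) ^ 3 * T3 = -Complex.I * (s ^ 3 * T3) := by
            rw [mul_pow, pow_succ Complex.I 2, Complex.I_sq]
            ring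
          rw [this, Complex.mul_re]
          simp only [Complex.neg_re, Complex.I_re, neg_zero, zero_mul, Complex.neg_im, Complex.I_im,
            zero_sub, neg_mul, one_mul, neg_neg]
          intro h4
          exact mul_ne_zero (pow_ne_zero 3 (z_ne_zero hs)) hT3' (Complex.ext h3 h4)
      · exact ⟨s, hs, hre2, h3⟩
    obtain ⟨m1, m2, m3⟩ := moments z hz c h0 h1 s hsn
    refine ⟨c, fun j => (s * z j).re,
      fun j => (∑ j, c j * (s * z j).re ^ 3) / (6 * ∑ i, c i ^ 2) * c j,
      h0, h1, m1, ?_, ?_, hyy _, ?_⟩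
    · rw [m2, hre2]
      norm_num
    · rw [m3]
      intro h
      apply hre3
      linarith
    · intro k hk
      rw [hk0 k hk]
      simp

end Pool.Agent.Lib.MP_045051_co.Quad
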