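import Pool.Agent.Lib.MP_045051_co.Quad.Rigid

/-!
Compactness and linear combinations of the equations.
-/

set_option autoImplicit false

open scoped BigOperators ComplexConjugate
open Filter Topology

namespace Pool.Agent.Lib.MP_045051_co.Quad

theorem app_two (M : Fin 3 → Fin 3 → ℝ) (h r : ℝ) (z : ℂ) :
    app M (pt h r z) 2 = M 2 0 * (r * z.re) + M 2 1 * (r * z.im) + M 2 2 * h := by
  unfold app pt
  rw [Fin.sum_univ_three]
  simp

theorem comb {ι : Type} [Fintype ι] (z : ι → ℂ) {h r δ v : ℝ} (M : Fin 3 → Fin 3 → ℝ)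
    (K : ι → ℝ) (hE : ∀ j, v + δ * K j = app M (pt h r (z j)) 2) (a : ι → ℝ) {t : ℝ} {w : ℂ}
    (h0 : ∑ j, a j = t) (h1 : ∑ j, (a j : ℂ) * z j = w) :
    t * v + δ * ∑ j, a j * K j = r * (M 2 0 * w.re + M 2 1 * w.im) + t * (M 2 2 * h) := by
  have hre : ∑ j, a j * (z j).re = w.re := by
    rw [← h1, Complex.re_sum]
    refine Finset.sum_congr rfl fun j _ => ?_
    rw [Complex.re_ofReal_mul]
  have him : ∑ j, a j * (z j).im = w.im := by
    rw [← h1, Complex.im_sum]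
    refine Finset.sum_congr rfl fun j _ => ?_
    rw [Complex.im_ofReal_mul]
  have e1 : ∑ j, a j * (v + δ * K j) = t * v + δ * ∑ j, a j * K j := by
    rw [← h0, Finset.sum_mul, Finset.mul_sum, ← Finset.sum_add_distrib]
    exact Finset.sum_congr rfl fun j _ => by ring
  have e2 : ∑ j, a j * (v + δ * K j) =
      r * (M 2 0 * w.re + M 2 1 * w.im) + t * (M 2 2 * h) := by
    rw [← hre, ← him, ← h0, Finset.mul_sum, Finset.mul_sum, ← Finset.sum_add_distrib,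
      Finset.mul_sum, Finset.sum_mul, ← Finset.sum_add_distrib]
    refine Finset.sum_congr rfl fun j _ => ?_
    rw [hE, app_two]
    ring
  rw [← e1, e2]

theorem null_mul {δ s : ℕ → ℝ} (hδ : Tendsto δ atTop (𝓝 0)) {B : ℝ} (hs : ∀ l, |s l| ≤ B) :
    Tendsto (fun l => δ l * s l) atTop (𝓝 0) := by
  have h1 : Tendsto (fun l => |δ l| * B) atTop (𝓝 0) := by
    have := (hδ.abs).mul_const B
    simpa using this
  refine squeeze_zero_norm (fun l => ?_) h1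
  rw [Real.norm_eq_abs, abs_mul]
  exact mul_le_mul_of_nonneg_left (hs l) (abs_nonneg _)

theorem sum_bd {ι : Type} [Fintype ι] (a K : ι → ℝ) {B : ℝ} (hK : ∀ j, |K j| ≤ B) :
    |∑ j, a j * K j| ≤ (∑ j, |a j|) * B := by
  refine (Finset.abs_sum_le_sum_abs _ _).trans ?_
  rw [Finset.sum_mul]
  refine Finset.sum_le_sum fun j _ => ?_
  rw [abs_mul]
  exact mul_le_mul_of_nonneg_left (hK j) (abs_nonneg _)

theorem compactness (M : ℕ → Fin 3 → Fin 3 → ℝ) (hM : ∀ l, Orth (M l)) (C : ℕ → ℝ) {B : ℝ}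
    (hC : ∀ l, |C l| ≤ B) :
    ∃ (φ : ℕ → ℕ) (M0 : Fin 3 → Fin 3 → ℝ) (C0 : ℝ), StrictMono φ ∧ Orth M0 ∧
      Tendsto (fun l => M (φ l)) atTop (𝓝 M0) ∧ Tendsto (fun l => C (φ l)) atTop (𝓝 C0) := by
  have hK : IsCompact ((Set.univ.pi fun _ : Fin 3 => Set.univ.pi fun _ : Fin 3 =>
      Set.Icc (-1 : ℝ) 1) ×ˢ Set.Icc (-B) B : Set ((Fin 3 → Fin 3 → ℝ) × ℝ)) :=
    (isCompact_univ_pi fun _ => isCompact_univ_pi fun _ => isCompact_Icc).prod isCompact_Icc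
  obtain ⟨⟨M0, C0⟩, _, φ, hφ, hlim⟩ := hK.tendsto_subseq (x := fun l => (M l, C l)) (fun l =>
    ⟨fun i _ k _ => orth_bd (hM l) i k, abs_le.1 (hC l)⟩)
  have h1 : Tendsto (fun l => M (φ l)) atTop (𝓝 M0) := (continuous_fst.tendsto _).comp hlim
  have h2 : Tendsto (fun l => C (φ l)) atTop (𝓝 C0) := (continuous_snd.tendsto _).comp hlim
  refine ⟨φ, M0, C0, hφ, ?_, h1, h2⟩
  intro k l
  have hc : Continuous fun M : Fin 3 → Fin 3 → ℝ => ∑ i, M i k * M i l := by fun_prop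
  have h3 := (hc.tendsto M0).comp h1
  have h4 : ((fun M : Fin 3 → Fin 3 → ℝ => ∑ i, M i k * M i l) ∘ fun l => M (φ l)) =
      fun _ => if k = l then 1 else 0 := by
    funext m
    exact hM _ k l
  rw [h4] at h3
  exact tendsto_nhds_unique h3 tendsto_const_nhds

theorem app_tendsto {M : ℕ → Fin 3 → Fin 3 → ℝ} {M0 : Fin 3 → Fin 3 → ℝ}
    (h : Tendsto M atTop (𝓝 M0)) (x : Fin 3 → ℝ) :
    Tendsto (fun l => app (M l) x) atTop (𝓝 (app M0 x)) := by
  have hc : Continuous fun M : Fin 3 → Fin 3 → ℝ => app M x := by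
    unfold app
    fun_prop
  exact (hc.tendsto M0).comp h

/-- entries of the third row tend to zero -/
theorem row_zero {M : ℕ → Fin 3 → Fin 3 → ℝ} {M0 : Fin 3 → Fin 3 → ℝ}
    (h : Tendsto M atTop (𝓝 M0)) {δ s : ℕ → ℝ} (hδ : Tendsto δ atTop (𝓝 0)) {B : ℝ}
    (hs : ∀ l, |s l| ≤ B) {r : ℝ} (hr : 0 < r) (k : Fin 3)
    (he : ∀ l, δ l * s l = r * M l 2 k) : M0 2 k = 0 := by
  have h1 : Tendsto (fun l => r * M l 2 k) atTop (𝓝 0) := by
    have := null_mul hδ hs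
    simpa only [he] using this
  have hc : Continuous fun M : Fin 3 → Fin 3 → ℝ => r * M 2 k := by fun_prop
  have h2 : Tendsto (fun l => r * M l 2 k) atTop (𝓝 (r * M0 2 k)) := (hc.tendsto M0).comp h
  have h3 := tendsto_nhds_unique h2 h1
  rcases mul_eq_zero.1 h3 with h4 | h4
  · exact absurd h4 hr.ne'
  · exact h4

/-- the last entry tends to its limit at quadratic speed -/
theorem last_fast {M : ℕ → Fin 3 → Fin 3 → ℝ} (hM : ∀ l, Orth (M l)) {M0 : Fin 3 → Fin 3 → ℝ}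
    (h : Tendsto M atTop (𝓝 M0)) {δ s1 s2 : ℕ → ℝ} (hδ : Tendsto δ atTop (𝓝 0))
    (hδ0 : ∀ l, 0 < δ l) {B1 B2 : ℝ}
    (hs1 : ∀ l, |s1 l| ≤ B1) (hs2 : ∀ l, |s2 l| ≤ B2) {r : ℝ} (hr : 0 < r)
    (he1 : ∀ l, δ l * s1 l = r * M l 2 0) (he2 : ∀ l, δ l * s2 l = r * M l 2 1)
    (hε : M0 2 2 = 1 ∨ M0 2 2 = -1) :
    Tendsto (fun l => (M l 2 2 - M0 2 2) / δ l) atTop (𝓝 0) := by
  have hsq : M0 2 2 * M0 2 2 = 1 := by rcases hε with h | h <;> rw [h] <;> norm_num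
  have hne : M0 2 2 + M0 2 2 ≠ 0 := by rcases hε with h | h <;> rw [h] <;> norm_num
  have hb : ∀ l, |(s1 l * s1 l + s2 l * s2 l)| ≤ B1 * B1 + B2 * B2 := by
    intro l
    refine (abs_add_le _ _).trans ?_
    rw [abs_mul, abs_mul]
    exact add_le_add (mul_self_le_mul_self (abs_nonneg _) (hs1 l))
      (mul_self_le_mul_self (abs_nonneg _) (hs2 l))
  have hnum := null_mul hδ hb
  have hc : Continuous fun M : Fin 3 → Fin 3 → ℝ => M 2 2 + M0 2 2 := by fun_prop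
  have hden : Tendsto (fun l => M l 2 2 + M0 2 2) atTop (𝓝 (M0 2 2 + M0 2 2)) :=
    (hc.tendsto M0).comp h
  have hq := (hnum.div hden hne).const_mul (-(1 / (r * r)))
  rw [zero_div, mul_zero] at hq
  refine Tendsto.congr' ?_ hq
  have hev : ∀ᶠ l in atTop, M l 2 2 + M0 2 2 ≠ 0 := hden.eventually_ne hne
  refine hev.mono fun l hl => ?_
  have hrow := orth_row (hM l) 2 2
  rw [if_pos rfl, Fin.sum_univ_three] at hrow
  have e1 := he1 l
  have e2 := he2 l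
  have hδl := (hδ0 l).ne'
  have hr' := hr.ne'
  have key : r * r * (M l 2 2 - M0 2 2) * (M l 2 2 + M0 2 2) =
      -(δ l * δ l * (s1 l * s1 l + s2 l * s2 l)) := by
    have a1 : (δ l * s1 l) * (δ l * s1 l) = (r * M l 2 0) * (r * M l 2 0) := by rw [e1]
    have a2 : (δ l * s2 l) * (δ l * s2 l) = (r * M l 2 1) * (r * M l 2 1) := by rw [e2]
    linear_combination (r * r) * hrow - (r * r) * hsq + a1 + a2
  show -(1 / (r * r)) * (δ l * (s1 l * s1 l + s2 l * s2 l) / (M l 2 2 + M0 2 2)) =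
    (M l 2 2 - M0 2 2) / δ l
  rw [eq_div_iff hδl]
  have h3 : (M l 2 2 - M0 2 2) = -(δ l * δ l * (s1 l * s1 l + s2 l * s2 l)) /
      (r * r * (M l 2 2 + M0 2 2)) := by
    rw [eq_div_iff (by positivity)]
    linear_combination key
  rw [h3]
  field_simp

end Pool.Agent.Lib.MP_045051_co.Quad
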