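import Mathlib

/-!
Real linear combinations of powers of distinct unit complex numbers.
-/

set_option autoImplicit false

open scoped BigOperators ComplexConjugate

namespace Pool.Agent.Lib.MP_045051_co.Quad

theorem mul_conj_one {z : ℂ} (hz : ‖z‖ = 1) : z * conj z = 1 := by
  rw [Complex.mul_conj, Complex.normSq_eq_norm_sq, hz]
  norm_num

theorem conj_ne_zero {z : ℂ} (hz : ‖z‖ = 1) : conj z ≠ 0 := by
  intro h
  have := mul_conj_one hz
  rw [h, mul_zero] at this
  exact zero_ne_one this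

/-- Vandermonde with symmetric exponents. -/
theorem vand {d : ℕ} (z : Fin (2 * d + 1) → ℂ) (hz : ∀ j, ‖z j‖ = 1)
    (hinj : Function.Injective z) (c : Fin (2 * d + 1) → ℝ) (h0 : ∑ j, c j = 0)
    (h : ∀ i : Fin d, ∑ j, (c j : ℂ) * z j ^ ((i : ℕ) + 1) = 0) : c = 0 := by
  have hall : ∀ i : ℕ, i ≤ d → ∑ j, (c j : ℂ) * z j ^ i = 0 := by
    intro i hi
    rcases i with _ | i
    · simp only [pow_zero, mul_one]
      rw [← Complex.ofReal_sum, h0, Complex.ofReal_zero]
    · exact h ⟨i, by omega⟩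
  have key : (fun j => (c j : ℂ) * conj (z j) ^ d) = 0 := by
    refine Matrix.eq_zero_of_forall_pow_sum_mul_pow_eq_zero hinj fun i => ?_
    have hp : ∀ (j : Fin (2 * d + 1)) (k : ℕ), z j ^ k * conj (z j) ^ k = 1 := fun j k => by
      rw [← mul_pow, mul_conj_one (hz j), one_pow]
    rcases le_total d (i : ℕ) with hd | hd
    · have e : ∀ j, (c j : ℂ) * conj (z j) ^ d * z j ^ (i : ℕ) =
          (c j : ℂ) * z j ^ ((i : ℕ) - d) := by
        intro j
        have h1 : z j ^ (i : ℕ) = z j ^ ((i : ℕ) - d) * z j ^ d := by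
          rw [← pow_add]
          congr 1
          omega
        rw [h1]
        linear_combination (c j : ℂ) * z j ^ ((i : ℕ) - d) * hp j d
      simp only [e]
      exact hall _ (by have := i.2; omega)
    · have e : ∀ j, (c j : ℂ) * conj (z j) ^ d * z j ^ (i : ℕ) =
          conj ((c j : ℂ) * z j ^ (d - (i : ℕ))) := by
        intro j
        have h1 : conj (z j) ^ d = conj (z j) ^ (d - (i : ℕ)) * conj (z j) ^ (i : ℕ) := by
          rw [← pow_add]
          congr 1
          omega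
        rw [h1, map_mul, map_pow, Complex.conj_ofReal]
        linear_combination (c j : ℂ) * conj (z j) ^ (d - (i : ℕ)) * hp j i
      simp only [e]
      rw [← map_sum, hall _ (by omega), map_zero]
  funext j
  have h1 := congrFun key j
  simp only [Pi.zero_apply, mul_eq_zero] at h1
  rcases h1 with h1 | h1
  · exact_mod_cast h1
  · exact absurd h1 (pow_ne_zero _ (conj_ne_zero (hz j)))

/-- the linear map of moments -/
noncomputable def mom {n : ℕ} (d : ℕ) (z : Fin n → ℂ) : (Fin n → ℝ) →ₗ[ℝ] ℝ × (Fin d → ℂ) where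
  toFun c := (∑ j, c j, fun i => ∑ j, (c j : ℂ) * z j ^ ((i : ℕ) + 1))
  map_add' a b := by
    ext i
    · simp [Finset.sum_add_distrib]
    · simp [Finset.sum_add_distrib, add_mul]
  map_smul' r a := by
    ext i
    · simp [Finset.mul_sum]
    · simp [Finset.mul_sum, mul_assoc]

theorem surj {d : ℕ} (z : Fin (2 * d + 1) → ℂ) (hz : ∀ j, ‖z j‖ = 1)
    (hinj : Function.Injective z) (t : ℝ) (w : Fin d → ℂ) :
    ∃ c : Fin (2 * d + 1) → ℝ, ∑ j, c j = t ∧
      ∀ i : Fin d, ∑ j, (c j : ℂ) * z j ^ ((i : ℕ) + 1) = w i := by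
  have hI : Function.Injective (mom d z) := by
    rw [injective_iff_map_eq_zero]
    intro c hc
    have h1 := congrArg Prod.fst hc
    have h2 := congrArg Prod.snd hc
    exact vand z hz hinj c h1 (fun i => congrFun h2 i)
  have hfin : Module.finrank ℝ (Fin (2 * d + 1) → ℝ) = Module.finrank ℝ (ℝ × (Fin d → ℂ)) := by
    rw [Module.finrank_prod, Module.finrank_pi_fintype, Module.finrank_pi_fintype]
    simp [Complex.finrank_real_complex]
    ring
  have hS := (LinearMap.injective_iff_surjective_of_finrank_eq_finrank hfin).1 hI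
  obtain ⟨c, hc⟩ := hS (t, w)
  have h1 := congrArg Prod.fst hc
  have h2 := congrArg Prod.snd hc
  exact ⟨c, h1, fun i => congrFun h2 i⟩

/-- three of four points: barycentric coordinates -/
theorem bary (z : Fin 4 → ℂ) (hz : ∀ j, ‖z j‖ = 1) (hinj : Function.Injective z) (t : ℝ)
    (w : ℂ) : ∃ c : Fin 4 → ℝ, ∑ j, c j = t ∧ ∑ j, (c j : ℂ) * z j = w := by
  obtain ⟨c, hc1, hc2⟩ := surj (d := 1) (fun j : Fin 3 => z j.castSucc) (fun j => hz _)
    (fun a b hab => Fin.castSucc_injective _ (hinj hab)) t (fun _ => w)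
  refine ⟨Fin.snoc c 0, ?_, ?_⟩
  · rw [Fin.sum_univ_castSucc]
    simp only [Fin.snoc_castSucc, Fin.snoc_last, add_zero]
    exact hc1
  · rw [Fin.sum_univ_castSucc]
    simp only [Fin.snoc_castSucc, Fin.snoc_last, Complex.ofReal_zero, zero_mul, add_zero]
    have := hc2 0
    simpa using this

/-- the affine dependence of four points -/
theorem exists_dep (z : Fin 4 → ℂ) : ∃ c : Fin 4 → ℝ, c ≠ 0 ∧ ∑ j, c j = 0 ∧
    ∑ j, (c j : ℂ) * z j = 0 := by
  have hlt : Module.finrank ℝ (ℝ × (Fin 1 → ℂ)) < Module.finrank ℝ (Fin 4 → ℝ) := by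
    rw [Module.finrank_prod, Module.finrank_pi_fintype, Module.finrank_pi_fintype]
    simp [Complex.finrank_real_complex]
  have hk := LinearMap.ker_ne_bot_of_finrank_lt (f := mom 1 z) hlt
  obtain ⟨c, hc, hc0⟩ := (Submodule.ne_bot_iff _).1 hk
  rw [LinearMap.mem_ker] at hc
  have h1 := congrArg Prod.fst hc
  have h2 := congrFun (congrArg Prod.snd hc) 0
  refine ⟨c, hc0, h1, ?_⟩
  have : ∑ j, (c j : ℂ) * z j ^ (((0 : Fin 1) : ℕ) + 1) = 0 := h2
  simpa using this

theorem T2_ne (z : Fin 4 → ℂ) (hz : ∀ j, ‖z j‖ = 1) (hinj : Function.Injective z)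
    (c : Fin 4 → ℝ) (hc : c ≠ 0) (h0 : ∑ j, c j = 0) (h1 : ∑ j, (c j : ℂ) * z j = 0) :
    ∑ j, (c j : ℂ) * z j ^ 2 ≠ 0 := by
  intro h2
  apply hc
  have key : (fun j => (c j : ℂ) * conj (z j)) = 0 := by
    refine Matrix.eq_zero_of_forall_pow_sum_mul_pow_eq_zero hinj fun i => ?_
    have hp : ∀ j, z j * conj (z j) = 1 := fun j => mul_conj_one (hz j)
    fin_cases i
    · simp only [pow_zero, mul_one]
      have := congrArg conj h1
      rw [map_sum, map_zero] at this
      simpa using this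
    · have e : ∀ j, (c j : ℂ) * conj (z j) * z j ^ 1 = (c j : ℂ) := fun j => by
        linear_combination (c j : ℂ) * hp j
      simp only [e]
      rw [← Complex.ofReal_sum, h0, Complex.ofReal_zero]
    · have e : ∀ j, (c j : ℂ) * conj (z j) * z j ^ 2 = (c j : ℂ) * z j := fun j => by
        linear_combination (c j : ℂ) * z j * hp j
      simp only [e]
      exact h1
    · have e : ∀ j, (c j : ℂ) * conj (z j) * z j ^ 3 = (c j : ℂ) * z j ^ 2 := fun j => by
        linear_combination (c j : ℂ) * z j ^ 2 * hp j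
      simp only [e]
      exact h2
  funext j
  have h3 := congrFun key j
  simp only [Pi.zero_apply, mul_eq_zero] at h3
  rcases h3 with h3 | h3
  · exact_mod_cast h3
  · exact absurd h3 (conj_ne_zero (hz j))

theorem T3_eq (z : Fin 4 → ℂ) (hz : ∀ j, ‖z j‖ = 1) (c : Fin 4 → ℝ) (h0 : ∑ j, c j = 0)
    (h1 : ∑ j, (c j : ℂ) * z j = 0) :
    ∑ j, (c j : ℂ) * z j ^ 3 = (∑ j, z j) * ∑ j, (c j : ℂ) * z j ^ 2 := by
  have hm : ∑ j, (c j : ℂ) * conj (z j) = 0 := by
    have := congrArg conj h1
    rw [map_sum, map_zero] at this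
    simpa using this
  have h0' : ∑ j, (c j : ℂ) = 0 := by rw [← Complex.ofReal_sum, h0, Complex.ofReal_zero]
  have hp : ∀ j, z j * conj (z j) = 1 := fun j => mul_conj_one (hz j)
  have p0 := hp 0
  have p1 := hp 1
  have p2 := hp 2
  have p3 := hp 3
  simp only [Fin.sum_univ_four] at *
  set a := z 0
  set b := z 1
  set x := z 2
  set y := z 3
  set e2 := a * b + a * x + a * y + b * x + b * y + x * y
  set e3 := a * b * x + a * b * y + a * x * y + b * x * y
  set e4 := a * b * x * y
  -- every root satisfies the quartic equation, divided by the root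
  have q0 : a ^ 3 - (a + b + x + y) * a ^ 2 + e2 * a - e3 + e4 * conj a = 0 := by
    simp only [e2, e3, e4]
    linear_combination (b * x * y) * p0
  have q1 : b ^ 3 - (a + b + x + y) * b ^ 2 + e2 * b - e3 + e4 * conj b = 0 := by
    simp only [e2, e3, e4]
    linear_combination (a * x * y) * p1
  have q2 : x ^ 3 - (a + b + x + y) * x ^ 2 + e2 * x - e3 + e4 * conj x = 0 := by
    simp only [e2, e3, e4]
    linear_combination (a * b * y) * p2
  have q3 : y ^ 3 - (a + b + x + y) * y ^ 2 + e2 * y - e3 + e4 * conj y = 0 := by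
    simp only [e2, e3, e4]
    linear_combination (a * b * x) * p3
  linear_combination (c 0 : ℂ) * q0 + (c 1 : ℂ) * q1 + (c 2 : ℂ) * q2 + (c 3 : ℂ) * q3 -
    e2 * h1 + e3 * h0' - e4 * hm

end Pool.Agent.Lib.MP_045051_co.Quad
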