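import Pool.Agent.Lib.MP_045051_co.Quad.Comp
import Pool.Agent.Lib.MP_045051_co.Quad.Vand

/-!
Five points of a circle of the sphere are never a Knaster set.
-/

set_option autoImplicit false

open scoped BigOperators ComplexConjugate
open Filter Topology

namespace Pool.Agent.Lib.MP_045051_co.Quad

theorem app_bd {M : Fin 3 → Fin 3 → ℝ} (hM : Orth M) (h : ℝ) {r : ℝ} (hr : 0 < r) {z : ℂ}
    (hz : ‖z‖ = 1) (i : Fin 3) : |app M (pt h r z) i| ≤ 2 * r + |h| := by
  unfold app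
  rw [Fin.sum_univ_three]
  have hb : ∀ k, |M i k| ≤ 1 := fun k => abs_le.2 (orth_bd hM i k)
  have hre : |z.re| ≤ 1 := hz ▸ Complex.abs_re_le_norm z
  have him : |z.im| ≤ 1 := hz ▸ Complex.abs_im_le_norm z
  have h0 : |M i 0 * pt h r z 0| ≤ r := by
    have e : pt h r z 0 = r * z.re := rfl
    rw [e, abs_mul, abs_mul, abs_of_pos hr]
    calc |M i 0| * (r * |z.re|) ≤ 1 * (r * 1) :=
          mul_le_mul (hb 0) (mul_le_mul_of_nonneg_left hre hr.le) (by positivity) zero_le_one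
      _ = r := by ring
  have h1 : |M i 1 * pt h r z 1| ≤ r := by
    have e : pt h r z 1 = r * z.im := rfl
    rw [e, abs_mul, abs_mul, abs_of_pos hr]
    calc |M i 1| * (r * |z.im|) ≤ 1 * (r * 1) :=
          mul_le_mul (hb 1) (mul_le_mul_of_nonneg_left him hr.le) (by positivity) zero_le_one
      _ = r := by ring
  have h2 : |M i 2 * pt h r z 2| ≤ |h| := by
    have e : pt h r z 2 = h := rfl
    rw [e, abs_mul]
    calc |M i 2| * |h| ≤ 1 * |h| := mul_le_mul_of_nonneg_right (hb 2) (abs_nonneg _)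
      _ = |h| := one_mul _
  calc |M i 0 * pt h r z 0 + M i 1 * pt h r z 1 + M i 2 * pt h r z 2| ≤
        |M i 0 * pt h r z 0| + |M i 1 * pt h r z 1| + |M i 2 * pt h r z 2| := abs_add_three _ _ _
    _ ≤ 2 * r + |h| := by linarith

theorem pl_bd {M : Fin 3 → Fin 3 → ℝ} (hM : Orth M) (h : ℝ) {r : ℝ} (hr : 0 < r) {z : ℂ}
    (hz : ‖z‖ = 1) : |(pl (app M (pt h r z)) ^ 2).re| ≤ (2 * (2 * r + |h|)) ^ 2 := by
  have h1 : ‖pl (app M (pt h r z))‖ ≤ 2 * (2 * r + |h|) := by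
    unfold pl
    refine (norm_add_le _ _).trans ?_
    rw [norm_mul, Complex.norm_I, mul_one, Complex.norm_real, Complex.norm_real,
      Real.norm_eq_abs, Real.norm_eq_abs]
    have := app_bd hM h hr hz 0
    have := app_bd hM h hr hz 1
    linarith
  refine (Complex.abs_re_le_norm _).trans ?_
  rw [norm_pow]
  exact pow_le_pow_left₀ (norm_nonneg _) h1 2

theorem five (z : Fin 5 → ℂ) (hz : ∀ j, ‖z j‖ = 1) (hinj : Function.Injective z)
    {h r : ℝ} (hr : 0 < r) :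
    ∃ f : (Fin 3 → ℝ) → ℝ, Continuous f ∧
      ∀ M, Orth M → ∀ v, ¬ ∀ j, f (app M (pt h r (z j))) = v := by
  by_contra hcon
  push Not at hcon
  have hmom : ∀ w0 w1 : ℂ, ∃ c : Fin 5 → ℝ, ∑ j, c j = 0 ∧ ∑ j, (c j : ℂ) * z j = w0 ∧
      ∑ j, (c j : ℂ) * z j ^ 2 = w1 := by
    intro w0 w1
    obtain ⟨c, h0, h1⟩ := surj (d := 2) z hz hinj 0 ![w0, w1]
    refine ⟨c, h0, ?_, ?_⟩
    · have := h1 0
      simpa using this
    · have := h1 1
      simpa using this
  obtain ⟨n1, hn10, hn11, -⟩ := hmom 1 0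
  obtain ⟨n2, hn20, hn21, -⟩ := hmom Complex.I 0
  obtain ⟨δ, hδdef⟩ : ∃ δ : ℕ → ℝ, δ = fun l : ℕ => 1 / ((l : ℝ) + 1) := ⟨_, rfl⟩
  have hδ0 : ∀ l, 0 < δ l := fun l => by rw [hδdef]; positivity
  have hδ : Tendsto δ atTop (𝓝 0) := by rw [hδdef]; exact tendsto_one_div_add_atTop_nhds_zero_nat
  have hfc : ∀ l, Continuous fun x : Fin 3 → ℝ => x 2 - δ l * (pl x ^ 2).re := fun l =>
    (continuous_apply 2).sub (continuous_const.mul (Complex.continuous_re.comp (pl_continuous.pow 2)))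
  have hM : ∀ l, ∃ M, Orth M ∧ ∃ v, ∀ j, (fun x : Fin 3 → ℝ => x 2 - δ l * (pl x ^ 2).re)
      (app M (pt h r (z j))) = v := fun l => hcon _ (hfc l)
  choose M hMO v hv using hM
  obtain ⟨K, hK⟩ : ∃ K : ℕ → Fin 5 → ℝ, ∀ l j, K l j = (pl (app (M l) (pt h r (z j))) ^ 2).re :=
    ⟨_, fun _ _ => rfl⟩
  have hKb : ∀ l j, |K l j| ≤ (2 * (2 * r + |h|)) ^ 2 := fun l j => by
    rw [hK]
    exact pl_bd (hMO l) h hr (hz j)
  have hE : ∀ l j, v l + δ l * K l j = app (M l) (pt h r (z j)) 2 := by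
    intro l j
    have := hv l j
    rw [hK]
    simp only at this
    linarith
  have hcK : ∀ c : Fin 5 → ℝ, ∑ j, c j = 0 → ∑ j, (c j : ℂ) * z j = 0 →
      ∀ l, ∑ j, c j * K l j = 0 := by
    intro c hc0 hc1 l
    have h1 := comb z (M l) (K l) (hE l) c hc0 hc1
    simp only [Complex.zero_re, Complex.zero_im, mul_zero, add_zero, zero_mul, zero_add] at h1
    rcases mul_eq_zero.1 h1 with h2 | h2
    · exact absurd h2 (hδ0 l).ne'
    · exact h2
  have hn1K : ∀ l, δ l * ∑ j, n1 j * K l j = r * M l 2 0 := by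
    intro l
    have h1 := comb z (M l) (K l) (hE l) n1 hn10 hn11
    simp only [Complex.one_re, Complex.one_im, mul_zero, add_zero, zero_mul, zero_add,
      mul_one] at h1
    exact h1
  have hn2K : ∀ l, δ l * ∑ j, n2 j * K l j = r * M l 2 1 := by
    intro l
    have h1 := comb z (M l) (K l) (hE l) n2 hn20 hn21
    simp only [Complex.I_re, Complex.I_im, mul_zero, add_zero, zero_mul, zero_add,
      mul_one] at h1
    exact h1
  obtain ⟨φ, M0, C0, hφ, hM0, hMlim, -⟩ :=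
    compactness M hMO (fun l => ∑ j, n1 j * K l j) (fun l => sum_bd n1 (K l) (hKb l))
  have hδφ : Tendsto (fun l => δ (φ l)) atTop (𝓝 0) := hδ.comp hφ.tendsto_atTop
  have h20 : M0 2 0 = 0 := row_zero hMlim hδφ (fun l => sum_bd n1 (K (φ l)) (hKb (φ l))) hr 0
    (fun l => hn1K (φ l))
  have h21 : M0 2 1 = 0 := row_zero hMlim hδφ (fun l => sum_bd n2 (K (φ l)) (hKb (φ l))) hr 1
    (fun l => hn2K (φ l))
  obtain ⟨-, p, hp, hrig⟩ := rigid hM0 h20 h21
  have hKlim : ∀ j, Tendsto (fun l => K (φ l) j) atTop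
      (𝓝 (pl (app M0 (pt h r (z j))) ^ 2).re) := by
    intro j
    have h1 := app_tendsto hMlim (pt h r (z j))
    have hc : Continuous fun x : Fin 3 → ℝ => (pl x ^ 2).re :=
      Complex.continuous_re.comp (pl_continuous.pow 2)
    have h2 := (hc.tendsto _).comp h1
    refine h2.congr fun l => ?_
    rw [hK]
    rfl
  have hlim : ∀ c : Fin 5 → ℝ, ∑ j, c j = 0 → ∑ j, (c j : ℂ) * z j = 0 →
      ∑ j, c j * (pl (app M0 (pt h r (z j))) ^ 2).re = 0 := by
    intro c hc0 hc1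
    have h1 : Tendsto (fun l => ∑ j, c j * K (φ l) j) atTop
        (𝓝 (∑ j, c j * (pl (app M0 (pt h r (z j))) ^ 2).re)) :=
      tendsto_finsetSum _ fun j _ => (hKlim j).const_mul _
    simp only [hcK c hc0 hc1] at h1
    exact tendsto_nhds_unique h1 tendsto_const_nhds
  have hpp : p * conj p = 1 := mul_conj_one hp
  have hpp2 : p ^ 2 * conj (p ^ 2) = 1 := by
    rw [map_pow, ← mul_pow, hpp, one_pow]
  rcases hrig with hrig | hrig
  · obtain ⟨c, hc0, hc1, hc2⟩ := hmom 0 (conj (p ^ 2))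
    have h1 := hlim c hc0 hc1
    have h2 : ∑ j, c j * (pl (app M0 (pt h r (z j))) ^ 2).re =
        ((r : ℂ) ^ 2 * (p ^ 2 * ∑ j, (c j : ℂ) * z j ^ 2)).re := by
      rw [Finset.mul_sum, Finset.mul_sum, Complex.re_sum]
      refine Finset.sum_congr rfl fun j _ => ?_
      rw [hrig h r (z j), ← Complex.re_ofReal_mul]
      congr 1
      ring
    rw [h2, hc2, hpp2, mul_one, ← Complex.ofReal_pow, Complex.ofReal_re] at h1
    exact absurd h1 (by positivity)
  · obtain ⟨c, hc0, hc1, hc2⟩ := hmom 0 (p ^ 2)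
    have h1 := hlim c hc0 hc1
    have h2 : ∑ j, c j * (pl (app M0 (pt h r (z j))) ^ 2).re =
        ((r : ℂ) ^ 2 * (p ^ 2 * conj (∑ j, (c j : ℂ) * z j ^ 2))).re := by
      rw [map_sum, Finset.mul_sum, Finset.mul_sum, Complex.re_sum]
      refine Finset.sum_congr rfl fun j _ => ?_
      rw [hrig h r (z j), ← Complex.re_ofReal_mul, map_mul, Complex.conj_ofReal, map_pow]
      congr 1
      ring
    rw [h2, hc2, hpp2, mul_one, ← Complex.ofReal_pow, Complex.ofReal_re] at h1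
    exact absurd h1 (by positivity)

end Pool.Agent.Lib.MP_045051_co.Quad
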