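import Pool.Agent.Lib.MP_045051_co.Quad.Level1
import Pool.Agent.Lib.MP_045051_co.Quad.Five

/-!
Translation to rotations of the sphere `S^2`.
-/

set_option autoImplicit false

open scoped BigOperators ComplexConjugate
open Filter Topology

namespace Pool.Agent.Lib.MP_045051_co.Quad

/-- three space -/
abbrev E3 : Type := EuclideanSpace ℝ (Fin 3)

/-- the matrix of an isometry -/
noncomputable def mat (T : E3 ≃ₗᵢ[ℝ] E3) : Fin 3 → Fin 3 → ℝ :=
  fun i k => T (EuclideanSpace.single k 1) i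

theorem mat_orth (T : E3 ≃ₗᵢ[ℝ] E3) : Orth (mat T) := by
  intro k l
  have h1 : inner ℝ (T (EuclideanSpace.single k 1)) (T (EuclideanSpace.single l 1)) =
      inner ℝ (EuclideanSpace.single k (1 : ℝ) : E3) (EuclideanSpace.single l 1) :=
    T.inner_map_map _ _
  rw [EuclideanSpace.inner_single_left, PiLp.inner_apply] at h1
  have h2 : ∑ i, mat T i k * mat T i l =
      ∑ i, inner ℝ (T (EuclideanSpace.single k 1) i) (T (EuclideanSpace.single l 1) i) := by
    refine Finset.sum_congr rfl fun i _ => ?_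
    simp [mat, mul_comm]
  rw [h2, h1]
  simp

theorem mat_app (T : E3 ≃ₗᵢ[ℝ] E3) (x : E3) (i : Fin 3) :
    T x i = app (mat T) (fun k => x k) i := by
  have hx : x = ∑ k, x k • (EuclideanSpace.single k (1 : ℝ) : E3) := by
    ext i
    simp [Pi.single_apply]
  conv_lhs => rw [hx]
  rw [map_sum, WithLp.ofLp_sum, Finset.sum_apply]
  unfold app mat
  refine Finset.sum_congr rfl fun k _ => ?_
  rw [map_smul, PiLp.smul_apply, smul_eq_mul, mul_comm]

/-- change of frame -/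
theorem frame (O T : E3 ≃ₗᵢ[ℝ] E3) {h r : ℝ} {z : ℂ} {s : E3}
    (h0 : O s 0 = r * z.re) (h1 : O s 1 = r * z.im) (h2 : O s 2 = h) :
    (fun i => T s i) = app (mat (O.symm.trans T)) (pt h r z) := by
  funext i
  have e1 : T s = (O.symm.trans T) (O s) := by
    rw [LinearIsometryEquiv.trans_apply, LinearIsometryEquiv.symm_apply_apply]
  rw [e1, mat_app]
  have e2 : (fun k => O s k) = pt h r z := by
    funext k
    fin_cases k
    · exact h0
    · exact h1
    · exact h2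
  rw [e2]

/-- five points in a plane section -/
theorem five_sphere (O : E3 ≃ₗᵢ[ℝ] E3) {h r : ℝ} (hr : 0 < r) (s : Fin 5 → E3)
    (z : Fin 5 → ℂ) (hz : ∀ j, ‖z j‖ = 1) (hinj : Function.Injective z)
    (h0 : ∀ j, O (s j) 0 = r * (z j).re) (h1 : ∀ j, O (s j) 1 = r * (z j).im)
    (h2 : ∀ j, O (s j) 2 = h) :
    ∃ f : (Fin 3 → ℝ) → ℝ, Continuous f ∧
      ∀ T : E3 ≃ₗᵢ[ℝ] E3, ∀ v, ¬ ∀ j, f (fun i => T (s j) i) = v := by
  obtain ⟨f, hf, hfM⟩ := five z hz hinj (h := h) hr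
  refine ⟨f, hf, fun T v hv => hfM (mat (O.symm.trans T)) (mat_orth _) v fun j => ?_⟩
  rw [← frame O T (h0 j) (h1 j) (h2 j)]
  exact hv j

/-- four generic points in a plane section -/
theorem four_sphere (O : E3 ≃ₗᵢ[ℝ] E3) {h r : ℝ} (hr : 0 < r) (s : Fin 4 → E3)
    (z : Fin 4 → ℂ) (hz : ∀ j, ‖z j‖ = 1) (hinj : Function.Injective z) (H : Generic z)
    (h0 : ∀ j, O (s j) 0 = r * (z j).re) (h1 : ∀ j, O (s j) 1 = r * (z j).im)
    (h2 : ∀ j, O (s j) 2 = h) :
    ∃ f : (Fin 3 → ℝ) → ℝ, Continuous f ∧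
      ∀ T : E3 ≃ₗᵢ[ℝ] E3, ∀ v, ¬ ∀ j, f (fun i => T (s j) i) = v := by
  obtain ⟨f, hf, hfM⟩ := level1 z hz hinj H (h := h) hr
  refine ⟨f, hf, fun T v hv => hfM (mat (O.symm.trans T)) (mat_orth _) v fun j => ?_⟩
  rw [← frame O T (h0 j) (h1 j) (h2 j)]
  exact hv j

end Pool.Agent.Lib.MP_045051_co.Quad
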