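import Mathlib

/-!
A global implicit function theorem for small Lipschitz perturbations of the identity.
-/

set_option autoImplicit false

open scoped BigOperators
open Filter Topology

namespace Pool.Agent.Lib.MP_045051_co.Quad

theorem implicit {X : Type*} [TopologicalSpace X] (g : X → ℝ) (hg : Continuous g)
    (G : X → ℝ → ℝ) (hG : ∀ v, Continuous fun x => G x v)
    (hL : ∀ x v v', |G x v - G x v'| ≤ 1 / 2 * |v - v'|) :
    ∃ f : X → ℝ, Continuous f ∧ ∀ x, f x + G x (f x) = g x := by
  have hex : ∀ x, ∃ v, v + G x v = g x := by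
    intro x
    have hK : ContractingWith (1 / 2 : NNReal) (fun v : ℝ => g x - G x v) := by
      refine ⟨by norm_num, LipschitzWith.of_dist_le_mul fun v v' => ?_⟩
      rw [Real.dist_eq, Real.dist_eq]
      have h1 : g x - G x v - (g x - G x v') = -(G x v - G x v') := by ring
      rw [h1, abs_neg]
      exact_mod_cast hL x v v'
    have := hK.fixedPoint_isFixedPt
    refine ⟨ContractingWith.fixedPoint _ hK, ?_⟩
    have h2 : g x - G x (ContractingWith.fixedPoint _ hK) = ContractingWith.fixedPoint _ hK := this
    linarith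
  choose f hf using hex
  refine ⟨f, ?_, hf⟩
  rw [continuous_iff_continuousAt]
  intro x0
  rw [ContinuousAt, tendsto_iff_dist_tendsto_zero]
  have hlim : Tendsto (fun x => 2 * (|g x - g x0| + |G x0 (f x0) - G x (f x0)|)) (𝓝 x0) (𝓝 0) := by
    have h1 : Tendsto (fun x => |g x - g x0|) (𝓝 x0) (𝓝 0) := by
      have := ((hg.sub continuous_const).abs : Continuous fun x => |g x - g x0|).tendsto x0
      simpa using this
    have h2 : Tendsto (fun x => |G x0 (f x0) - G x (f x0)|) (𝓝 x0) (𝓝 0) := by
      have := ((continuous_const.sub (hG (f x0))).abs :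
        Continuous fun x => |G x0 (f x0) - G x (f x0)|).tendsto x0
      simpa using this
    have := (h1.add h2).const_mul 2
    simpa using this
  refine squeeze_zero (fun x => dist_nonneg) (fun x => ?_) hlim
  rw [Real.dist_eq]
  have h1 := hL x (f x) (f x0)
  have e : f x - f x0 = (g x - g x0) + (G x0 (f x0) - G x (f x0)) - (G x (f x) - G x (f x0)) := by
    have := hf x
    have := hf x0
    linarith
  have h2 : |f x - f x0| ≤ |g x - g x0| + |G x0 (f x0) - G x (f x0)| + 1 / 2 * |f x - f x0| := by
    calc |f x - f x0| = |(g x - g x0) + (G x0 (f x0) - G x (f x0)) - (G x (f x) - G x (f x0))| := by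
          rw [← e]
      _ ≤ |(g x - g x0) + (G x0 (f x0) - G x (f x0))| + |G x (f x) - G x (f x0)| := abs_sub _ _
      _ ≤ |g x - g x0| + |G x0 (f x0) - G x (f x0)| + 1 / 2 * |f x - f x0| :=
          add_le_add (abs_add_le _ _) h1
  linarith

end Pool.Agent.Lib.MP_045051_co.Quad
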