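import Mathlib

/-!
The perturbing function `kf`.
-/

set_option autoImplicit false

open scoped BigOperators ComplexConjugate

namespace Pool.Agent.Lib.MP_045051_co.Quad

/-- clamp to `[-2, 2]` -/
noncomputable def cl (c : ℝ) : ℝ := max (-2) (min c 2)

/-- cut-off -/
noncomputable def chi (c : ℝ) : ℝ := max 0 (min 1 ((12 - |c|) / 10))

/-- the bracket -/
noncomputable def br (ζ : ℂ) (c : ℝ) : ℝ :=
  -ζ.re - (2 * cl c ^ 2 - 1) * (ζ ^ 2).im / 6000 - (4 * cl c ^ 3 - 3 * cl c) * (ζ ^ 3).im / 24000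

/-- the perturbing function -/
noncomputable def kf (ζ : ℂ) (c : ℝ) : ℝ := chi c * br ζ c

theorem cl_le (c : ℝ) : cl c ≤ 2 := max_le (by norm_num) (min_le_right _ _)
theorem le_cl (c : ℝ) : -2 ≤ cl c := le_max_left _ _

theorem cl_lip (c c' : ℝ) : |cl c - cl c'| ≤ |c - c'| := by
  unfold cl
  refine (abs_max_sub_max_le_max _ _ _ _).trans ?_
  rw [sub_self, abs_zero]
  refine max_le (abs_nonneg _) ((abs_min_sub_min_le_max _ _ _ _).trans ?_)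
  rw [sub_self, abs_zero]
  exact max_le le_rfl (abs_nonneg _)

theorem chi_nonneg (c : ℝ) : 0 ≤ chi c := le_max_left _ _
theorem chi_le (c : ℝ) : chi c ≤ 1 := max_le (by norm_num) (min_le_left _ _)

theorem chi_lip (c c' : ℝ) : |chi c - chi c'| ≤ |c - c'| / 10 := by
  unfold chi
  refine (abs_max_sub_max_le_max _ _ _ _).trans ?_
  rw [sub_self, abs_zero]
  refine max_le (by positivity) ((abs_min_sub_min_le_max _ _ _ _).trans ?_)
  rw [sub_self, abs_zero]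
  refine max_le (by positivity) ?_
  have h1 : (12 - |c|) / 10 - (12 - |c'|) / 10 = (|c'| - |c|) / 10 := by ring
  rw [h1, abs_div, abs_of_pos (by norm_num : (0 : ℝ) < 10)]
  refine div_le_div_of_nonneg_right ?_ (by norm_num)
  rw [abs_sub_comm c c']
  exact abs_abs_sub_abs_le _ _

theorem chi_zero {c : ℝ} (hc : 12 ≤ |c|) : chi c = 0 := by
  unfold chi
  rw [max_eq_left]
  exact (min_le_right _ _).trans (by linarith)

theorem chi_one {c : ℝ} (hc : |c| ≤ 2) : chi c = 1 := by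
  unfold chi
  rw [min_eq_left (by linarith), max_eq_right (by norm_num)]

theorem cl_self {c : ℝ} (hc : |c| ≤ 2) : cl c = c := by
  rw [abs_le] at hc
  unfold cl
  rw [min_eq_left hc.2, max_eq_right hc.1]

theorem kf_zero {ζ : ℂ} {c : ℝ} (hc : 12 ≤ |c|) : kf ζ c = 0 := by
  rw [kf, chi_zero hc, zero_mul]

theorem s2_bd (c : ℝ) : |2 * cl c ^ 2 - 1| ≤ 7 := by
  have h1 := cl_le c
  have h2 := le_cl c
  rw [abs_le]
  constructor <;> nlinarith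

theorem s3_bd (c : ℝ) : |4 * cl c ^ 3 - 3 * cl c| ≤ 26 := by
  have h1 := cl_le c
  have h2 := le_cl c
  rw [abs_le]
  constructor
  · nlinarith [mul_nonneg (by linarith : (0 : ℝ) ≤ cl c + 2) (sq_nonneg (cl c - 1)),
      sq_nonneg (cl c)]
  · nlinarith [mul_nonneg (by linarith : (0 : ℝ) ≤ 2 - cl c) (sq_nonneg (cl c + 1)),
      sq_nonneg (cl c)]

theorem s2_lip (c c' : ℝ) : |(2 * cl c ^ 2 - 1) - (2 * cl c' ^ 2 - 1)| ≤ 8 * |c - c'| := by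
  have e : (2 * cl c ^ 2 - 1) - (2 * cl c' ^ 2 - 1) = 2 * (cl c + cl c') * (cl c - cl c') := by ring
  have h1 := cl_le c
  have h2 := le_cl c
  have h3 := cl_le c'
  have h4 := le_cl c'
  have h5 : |2 * (cl c + cl c')| ≤ 8 := by
    rw [abs_le]
    constructor <;> linarith
  rw [e, abs_mul]
  exact mul_le_mul h5 (cl_lip c c') (abs_nonneg _) (by norm_num)

theorem s3_lip (c c' : ℝ) :
    |(4 * cl c ^ 3 - 3 * cl c) - (4 * cl c' ^ 3 - 3 * cl c')| ≤ 51 * |c - c'| := by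
  have e : (4 * cl c ^ 3 - 3 * cl c) - (4 * cl c' ^ 3 - 3 * cl c') =
      (4 * (cl c ^ 2 + cl c * cl c' + cl c' ^ 2) - 3) * (cl c - cl c') := by ring
  have h1 := cl_le c
  have h2 := le_cl c
  have h3 := cl_le c'
  have h4 := le_cl c'
  have h5 : |4 * (cl c ^ 2 + cl c * cl c' + cl c' ^ 2) - 3| ≤ 51 := by
    rw [abs_le]
    constructor
    · nlinarith [sq_nonneg (cl c + cl c'), sq_nonneg (cl c), sq_nonneg (cl c')]
    · nlinarith [sq_nonneg (cl c - cl c')]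
  rw [e, abs_mul]
  exact mul_le_mul h5 (cl_lip c c') (abs_nonneg _) (by norm_num)

theorem im_pow_le {ζ : ℂ} (hζ : ‖ζ‖ ≤ 1) (m : ℕ) : |(ζ ^ m).im| ≤ 1 := by
  refine (Complex.abs_im_le_norm _).trans ?_
  rw [norm_pow]
  exact pow_le_one₀ (norm_nonneg _) hζ

theorem br_bd {ζ : ℂ} (hζ : ‖ζ‖ ≤ 1) (c : ℝ) : |br ζ c| ≤ 1003 / 1000 := by
  unfold br
  have h1 : |ζ.re| ≤ 1 := (Complex.abs_re_le_norm _).trans hζ
  have h2 : |(2 * cl c ^ 2 - 1) * (ζ ^ 2).im| ≤ 7 * 1 := by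
    rw [abs_mul]
    exact mul_le_mul (s2_bd c) (im_pow_le hζ 2) (abs_nonneg _) (by norm_num)
  have h3 : |(4 * cl c ^ 3 - 3 * cl c) * (ζ ^ 3).im| ≤ 26 * 1 := by
    rw [abs_mul]
    exact mul_le_mul (s3_bd c) (im_pow_le hζ 3) (abs_nonneg _) (by norm_num)
  rw [abs_le] at h1 h2 h3 ⊢
  constructor <;> linarith [h1.1, h1.2, h2.1, h2.2, h3.1, h3.2]

theorem kf_bd {ζ : ℂ} (hζ : ‖ζ‖ ≤ 1) (c : ℝ) : |kf ζ c| ≤ 1003 / 1000 := by
  rw [kf, abs_mul, abs_of_nonneg (chi_nonneg c)]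
  calc chi c * |br ζ c| ≤ 1 * (1003 / 1000) :=
        mul_le_mul (chi_le c) (br_bd hζ c) (abs_nonneg _) (by norm_num)
    _ = 1003 / 1000 := one_mul _

/-- Lipschitz in `c` -/
theorem kf_lip {ζ : ℂ} (hζ : ‖ζ‖ ≤ 1) (c c' : ℝ) : |kf ζ c - kf ζ c'| ≤ |c - c'| / 4 := by
  have e : kf ζ c - kf ζ c' = (chi c - chi c') * br ζ c -
      chi c' * (((2 * cl c ^ 2 - 1) - (2 * cl c' ^ 2 - 1)) * (ζ ^ 2).im / 6000 +
        ((4 * cl c ^ 3 - 3 * cl c) - (4 * cl c' ^ 3 - 3 * cl c')) * (ζ ^ 3).im / 24000) := by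
    unfold kf br
    ring
  have h0 : 0 ≤ |c - c'| := abs_nonneg _
  have h1 : |(chi c - chi c') * br ζ c| ≤ |c - c'| / 10 * (1003 / 1000) := by
    rw [abs_mul]
    exact mul_le_mul (chi_lip c c') (br_bd hζ c) (abs_nonneg _) (by positivity)
  have h2 : |((2 * cl c ^ 2 - 1) - (2 * cl c' ^ 2 - 1)) * (ζ ^ 2).im| ≤ 8 * |c - c'| * 1 := by
    rw [abs_mul]
    exact mul_le_mul (s2_lip c c') (im_pow_le hζ 2) (abs_nonneg _) (by positivity)
  have h3 : |((4 * cl c ^ 3 - 3 * cl c) - (4 * cl c' ^ 3 - 3 * cl c')) * (ζ ^ 3).im| ≤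
      51 * |c - c'| * 1 := by
    rw [abs_mul]
    exact mul_le_mul (s3_lip c c') (im_pow_le hζ 3) (abs_nonneg _) (by positivity)
  have h4 : |((2 * cl c ^ 2 - 1) - (2 * cl c' ^ 2 - 1)) * (ζ ^ 2).im / 6000 +
        ((4 * cl c ^ 3 - 3 * cl c) - (4 * cl c' ^ 3 - 3 * cl c')) * (ζ ^ 3).im / 24000| ≤
      |c - c'| / 200 := by
    rw [abs_le] at h2 h3 ⊢
    constructor <;> linarith [h2.1, h2.2, h3.1, h3.2]
  have h5 : |chi c' * (((2 * cl c ^ 2 - 1) - (2 * cl c' ^ 2 - 1)) * (ζ ^ 2).im / 6000 +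
        ((4 * cl c ^ 3 - 3 * cl c) - (4 * cl c' ^ 3 - 3 * cl c')) * (ζ ^ 3).im / 24000)| ≤
      1 * (|c - c'| / 200) := by
    rw [abs_mul, abs_of_nonneg (chi_nonneg c')]
    exact mul_le_mul (chi_le c') h4 (abs_nonneg _) (by norm_num)
  rw [e]
  refine (abs_sub _ _).trans ?_
  linarith

theorem norm_sq_sub {a b : ℂ} (ha : ‖a‖ ≤ 1) (hb : ‖b‖ ≤ 1) : ‖a ^ 2 - b ^ 2‖ ≤ 2 * ‖a - b‖ := by
  have : a ^ 2 - b ^ 2 = (a + b) * (a - b) := by ring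
  rw [this, norm_mul]
  refine mul_le_mul_of_nonneg_right ((norm_add_le _ _).trans ?_) (norm_nonneg _)
  linarith

theorem norm_cube_sub {a b : ℂ} (ha : ‖a‖ ≤ 1) (hb : ‖b‖ ≤ 1) :
    ‖a ^ 3 - b ^ 3‖ ≤ 3 * ‖a - b‖ := by
  have : a ^ 3 - b ^ 3 = (a ^ 2 + a * b + b ^ 2) * (a - b) := by ring
  rw [this, norm_mul]
  refine mul_le_mul_of_nonneg_right ((norm_add₃_le).trans ?_) (norm_nonneg _)
  rw [norm_pow, norm_mul, norm_pow]
  have h1 := norm_nonneg a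
  have h2 := norm_nonneg b
  nlinarith [mul_nonneg h1 h2]

/-- Lipschitz in `ζ` -/
theorem kf_lip' {ζ ζ' : ℂ} (h : ‖ζ‖ ≤ 1) (h' : ‖ζ'‖ ≤ 1) (c : ℝ) :
    |kf ζ c - kf ζ' c| ≤ 2 * ‖ζ - ζ'‖ := by
  have e : kf ζ c - kf ζ' c = chi c * (-(ζ - ζ').re -
      (2 * cl c ^ 2 - 1) * (ζ ^ 2 - ζ' ^ 2).im / 6000 -
      (4 * cl c ^ 3 - 3 * cl c) * (ζ ^ 3 - ζ' ^ 3).im / 24000) := by
    unfold kf br
    rw [Complex.sub_re, Complex.sub_im, Complex.sub_im]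
    ring
  have h0 := norm_nonneg (ζ - ζ')
  have h1 : |(ζ - ζ').re| ≤ ‖ζ - ζ'‖ := Complex.abs_re_le_norm _
  have h2 : |(2 * cl c ^ 2 - 1) * (ζ ^ 2 - ζ' ^ 2).im| ≤ 7 * (2 * ‖ζ - ζ'‖) := by
    rw [abs_mul]
    exact mul_le_mul (s2_bd c) ((Complex.abs_im_le_norm _).trans (norm_sq_sub h h'))
      (abs_nonneg _) (by norm_num)
  have h3 : |(4 * cl c ^ 3 - 3 * cl c) * (ζ ^ 3 - ζ' ^ 3).im| ≤ 26 * (3 * ‖ζ - ζ'‖) := by
    rw [abs_mul]
    exact mul_le_mul (s3_bd c) ((Complex.abs_im_le_norm _).trans (norm_cube_sub h h'))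
      (abs_nonneg _) (by norm_num)
  have h4 : |-(ζ - ζ').re - (2 * cl c ^ 2 - 1) * (ζ ^ 2 - ζ' ^ 2).im / 6000 -
      (4 * cl c ^ 3 - 3 * cl c) * (ζ ^ 3 - ζ' ^ 3).im / 24000| ≤ 2 * ‖ζ - ζ'‖ := by
    rw [abs_le] at h1 h2 h3 ⊢
    constructor <;> linarith [h1.1, h1.2, h2.1, h2.2, h3.1, h3.2]
  rw [e, abs_mul, abs_of_nonneg (chi_nonneg c)]
  calc chi c * _ ≤ 1 * (2 * ‖ζ - ζ'‖) := mul_le_mul (chi_le c) h4 (abs_nonneg _) (by norm_num)
    _ = _ := one_mul _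

theorem kf_continuous : Continuous fun p : ℂ × ℝ => kf p.1 p.2 := by
  unfold kf br chi cl
  fun_prop

/-- the sign lemma -/
theorem sign_lemma {U : ℂ} (hU : ‖U‖ = 1) {C : ℝ} (h : |C + kf U C| ≤ 1 / 1000) :
    chi C = 1 ∧ 1 / 10 ≤ (2 * cl C ^ 2 - 1) * (U ^ 2).re + (4 * cl C ^ 3 - 3 * cl C) * (U ^ 3).re := by
  have hk := kf_bd hU.le C
  have hC : |C| ≤ 11 / 10 := by
    rw [abs_le] at h hk ⊢
    constructor <;> linarith [h.1, h.2, hk.1, hk.2]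
  have hC2 : |C| ≤ 2 := hC.trans (by norm_num)
  have hchi := chi_one hC2
  have hcl := cl_self hC2
  refine ⟨hchi, ?_⟩
  have hn : U.re ^ 2 + U.im ^ 2 = 1 := by
    have := Complex.normSq_eq_norm_sq U
    rw [hU, Complex.normSq_apply] at this
    nlinarith
  have hi2 := im_pow_le hU.le 2
  have hi3 := im_pow_le hU.le 3
  set t := U.re with ht
  have h2 : (U ^ 2).re = 2 * t ^ 2 - 1 := by
    rw [sq, Complex.mul_re]
    nlinarith
  have h3 : (U ^ 3).re = 4 * t ^ 3 - 3 * t := by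
    have : (U ^ 3).re = U.re ^ 3 - 3 * U.re * U.im ^ 2 := by
      rw [pow_succ, sq, Complex.mul_re, Complex.mul_re, Complex.mul_im]
      ring
    rw [this, ← ht]
    have h4 : U.im ^ 2 = 1 - t ^ 2 := by linarith
    rw [h4]
    ring
  have ht1 : |t| ≤ 1 := by
    rw [abs_le]
    constructor <;> nlinarith [sq_nonneg U.im]
  -- `C` is close to `t`
  have hs2 := s2_bd C
  have hs3 := s3_bd C
  have hd : |C - t| ≤ 4 / 1000 := by
    have e1 : |(2 * cl C ^ 2 - 1) * (U ^ 2).im| ≤ 7 * 1 := by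
      rw [abs_mul]
      exact mul_le_mul hs2 hi2 (abs_nonneg _) (by norm_num)
    have e2 : |(4 * cl C ^ 3 - 3 * cl C) * (U ^ 3).im| ≤ 26 * 1 := by
      rw [abs_mul]
      exact mul_le_mul hs3 hi3 (abs_nonneg _) (by norm_num)
    have e3 : C + kf U C = (C - t) - (2 * cl C ^ 2 - 1) * (U ^ 2).im / 6000 -
        (4 * cl C ^ 3 - 3 * cl C) * (U ^ 3).im / 24000 := by
      rw [kf, hchi, br]
      ring
    rw [e3] at h
    rw [abs_le] at h e1 e2 ⊢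
    constructor <;> linarith [h.1, h.2, e1.1, e1.2, e2.1, e2.2]
  rw [hcl, h2, h3]
  -- main term
  have hmain : 18 / 100 ≤ (2 * t ^ 2 - 1) ^ 2 + (4 * t ^ 3 - 3 * t) ^ 2 := by
    have hq : t ^ 2 ≤ 1 := by
      rw [abs_le] at ht1
      nlinarith [ht1.1, ht1.2]
    have hq0 : 0 ≤ t ^ 2 := sq_nonneg t
    have e : (2 * t ^ 2 - 1) ^ 2 + (4 * t ^ 3 - 3 * t) ^ 2 =
        16 * (t ^ 2) ^ 3 - 20 * (t ^ 2) ^ 2 + 5 * t ^ 2 + 1 := by ring
    rw [e]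
    nlinarith [mul_nonneg (by linarith : (0 : ℝ) ≤ 16 * t ^ 2 + 1.76) (sq_nonneg (t ^ 2 - 0.68))]
  have hA : |2 * t ^ 2 - 1| ≤ 1 := by
    rw [← h2]
    refine (Complex.abs_re_le_norm _).trans ?_
    rw [norm_pow, hU, one_pow]
  have hB : |4 * t ^ 3 - 3 * t| ≤ 1 := by
    rw [← h3]
    refine (Complex.abs_re_le_norm _).trans ?_
    rw [norm_pow, hU, one_pow]
  have hd2 : |(2 * C ^ 2 - 1) - (2 * t ^ 2 - 1)| ≤ 17 / 1000 := by
    have e : (2 * C ^ 2 - 1) - (2 * t ^ 2 - 1) = (2 * (C + t)) * (C - t) := by ring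
    have e1 : |2 * (C + t)| ≤ 42 / 10 := by
      rw [abs_le] at hC ht1 ⊢
      constructor <;> linarith [hC.1, hC.2, ht1.1, ht1.2]
    rw [e, abs_mul]
    calc _ ≤ 42 / 10 * (4 / 1000) := mul_le_mul e1 hd (abs_nonneg _) (by norm_num)
      _ ≤ 17 / 1000 := by norm_num
  have hd3 : |(4 * C ^ 3 - 3 * C) - (4 * t ^ 3 - 3 * t)| ≤ 60 / 1000 := by
    have e : (4 * C ^ 3 - 3 * C) - (4 * t ^ 3 - 3 * t) =
        (4 * (C ^ 2 + C * t + t ^ 2) - 3) * (C - t) := by ring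
    have e1 : |4 * (C ^ 2 + C * t + t ^ 2) - 3| ≤ 15 := by
      rw [abs_le] at hC ht1 ⊢
      constructor
      · nlinarith [sq_nonneg (C + t), sq_nonneg C, sq_nonneg t]
      · nlinarith [sq_nonneg (C - t), hC.1, hC.2, ht1.1, ht1.2]
    rw [e, abs_mul]
    calc _ ≤ 15 * (4 / 1000) := mul_le_mul e1 hd (abs_nonneg _) (by norm_num)
      _ = 60 / 1000 := by norm_num
  have hE1 : |((2 * C ^ 2 - 1) - (2 * t ^ 2 - 1)) * (2 * t ^ 2 - 1)| ≤ 17 / 1000 * 1 := by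
    rw [abs_mul]
    exact mul_le_mul hd2 hA (abs_nonneg _) (by norm_num)
  have hE2 : |((4 * C ^ 3 - 3 * C) - (4 * t ^ 3 - 3 * t)) * (4 * t ^ 3 - 3 * t)| ≤
      60 / 1000 * 1 := by
    rw [abs_mul]
    exact mul_le_mul hd3 hB (abs_nonneg _) (by norm_num)
  rw [abs_le] at hE1 hE2
  nlinarith [hE1.1, hE2.1]

end Pool.Agent.Lib.MP_045051_co.Quad
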