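import Mathlib

/-!
Kronecker's approximation theorem for finitely many unit complex numbers.
-/

set_option autoImplicit false

open scoped BigOperators ComplexConjugate
open Filter Topology

namespace Pool.Agent.Lib.MP_045051_co.Quad

/-- Cesaro means of powers of a unit complex number. -/
theorem tendsto_avg_pow (z : ℂ) (hz : ‖z‖ = 1) :
    Tendsto (fun N : ℕ => (∑ n ∈ Finset.range N, z ^ n) / (N : ℂ)) atTop
      (𝓝 (if z = 1 then 1 else 0)) := by
  split_ifs with h
  · subst h
    refine tendsto_const_nhds.congr' ?_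
    filter_upwards [eventually_gt_atTop 0] with N hN
    have : (N : ℂ) ≠ 0 := by exact_mod_cast hN.ne'
    simp [this]
  · have hz1 : z - 1 ≠ 0 := sub_ne_zero.2 h
    rw [tendsto_zero_iff_norm_tendsto_zero]
    have hb : ∀ N : ℕ, ‖(∑ n ∈ Finset.range N, z ^ n) / (N : ℂ)‖ ≤ (2 / ‖z - 1‖) / (N : ℝ) := by
      intro N
      rw [geom_sum_eq h, norm_div, norm_div, Complex.norm_natCast]
      gcongr
      calc ‖z ^ N - 1‖ ≤ ‖z ^ N‖ + ‖(1 : ℂ)‖ := norm_sub_le _ _
        _ = 2 := by rw [norm_pow, hz]; norm_num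
    refine squeeze_zero (fun N => norm_nonneg _) hb ?_
    exact tendsto_const_div_atTop_nhds_zero_nat _

/-- Kronecker's theorem. -/
theorem kronecker {ι : Type} [Fintype ι] [DecidableEq ι] (t b : ι → ℂ) (ht : ∀ i, ‖t i‖ = 1)
    (hb : ∀ i, ‖b i‖ = 1) (h : ∀ k : ι → ℤ, ∏ i, t i ^ k i = 1 → ∏ i, b i ^ k i = 1) {η : ℝ}
    (hη : 0 < η) : ∃ n : ℕ, ∀ i, ‖t i ^ n - b i‖ < η := by
  classical
  by_contra hcon
  push Not at hcon
  have ht0 : ∀ i, t i ≠ 0 := fun i h0 => by
    have := ht i
    rw [h0, norm_zero] at this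
    norm_num at this
  have hb0 : ∀ i, b i ≠ 0 := fun i h0 => by
    have := hb i
    rw [h0, norm_zero] at this
    norm_num at this
  have hbb : ∀ i, b i * conj (b i) = 1 := fun i => by
    rw [Complex.mul_conj, Complex.normSq_eq_norm_sq, hb i]
    norm_num
  have htt : ∀ i, t i * conj (t i) = 1 := fun i => by
    rw [Complex.mul_conj, Complex.normSq_eq_norm_sq, ht i]
    norm_num
  set q : ℝ := 1 - η ^ 2 / 4 with hq
  -- the key inequality
  have key : ∀ M : ℕ, (1 : ℝ) ≤ ((M : ℝ) + 1) ^ Fintype.card ι * q ^ M := by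
    intro M
    let P : Finset (ι → ℕ) := Fintype.piFinset (fun _ => Finset.range (M + 1))
    let c : (ι → ℕ) → ℝ := fun k => ∏ i, ((M.choose (k i) : ℝ) / 2 ^ M)
    let T : (ι → ℕ) → ℂ := fun k => ∏ i, t i ^ k i
    let B : (ι → ℕ) → ℂ := fun k => ∏ i, b i ^ k i
    let G : ℕ → ℂ := fun n => ∏ i, ((1 + t i ^ n * conj (b i)) / 2) ^ M
    have hT1 : ∀ k, ‖T k‖ = 1 := fun k => by
      simp only [T, norm_prod, norm_pow, ht, one_pow, Finset.prod_const_one]
    have hB1 : ∀ k, B k * conj (B k) = 1 := fun k => by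
      rw [Complex.mul_conj, Complex.normSq_eq_norm_sq]
      simp only [B, norm_prod, norm_pow, hb, one_pow, Finset.prod_const_one]
      norm_num
    have hTT : ∀ k, T k * conj (T k) = 1 := fun k => by
      rw [Complex.mul_conj, Complex.normSq_eq_norm_sq, hT1]
      norm_num
    have hc0 : ∀ k, 0 ≤ c k := fun k => Finset.prod_nonneg fun i _ => by positivity
    -- sum of coefficients
    have hc1 : ∑ k ∈ P, c k = 1 := by
      simp only [P, c]
      rw [← Finset.prod_univ_sum (fun _ => Finset.range (M + 1))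
        (fun _ j => (M.choose j : ℝ) / 2 ^ M)]
      have : ∑ j ∈ Finset.range (M + 1), (M.choose j : ℝ) / 2 ^ M = 1 := by
        rw [← Finset.sum_div]
        have h2 := Nat.sum_range_choose M
        have h3 : (∑ j ∈ Finset.range (M + 1), (M.choose j : ℝ)) = 2 ^ M := by exact_mod_cast h2
        rw [h3, div_self (by positivity)]
      simp [this]
    -- expansion
    have hG : ∀ n, G n = ∑ k ∈ P, (c k : ℂ) * T k ^ n * conj (B k) := by
      intro n
      have h1 : ∀ i, ((1 + t i ^ n * conj (b i)) / 2) ^ M =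
          ∑ j ∈ Finset.range (M + 1), (((M.choose j : ℝ) / 2 ^ M : ℝ) : ℂ) * (t i ^ j) ^ n *
            conj (b i ^ j) := by
        intro i
        rw [div_pow, add_comm, add_pow, Finset.sum_div]
        refine Finset.sum_congr rfl fun j _ => ?_
        rw [one_pow, mul_one, mul_pow, map_pow, ← pow_mul, ← pow_mul, mul_comm n j]
        push_cast
        ring
      simp only [G, h1]
      rw [Finset.prod_univ_sum]
      refine Finset.sum_congr rfl fun k _ => ?_
      simp only [c, T, B]
      rw [Finset.prod_mul_distrib, Finset.prod_mul_distrib, map_prod, Finset.prod_pow]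
      push_cast
      rfl
    -- upper bound
    have hGle : ∀ n, ‖G n‖ ^ 2 ≤ q ^ M := by
      intro n
      obtain ⟨i0, hi0⟩ := hcon n
      have hw : ∀ i, ‖(1 + t i ^ n * conj (b i)) / 2‖ ^ 2 = 1 - ‖t i ^ n - b i‖ ^ 2 / 4 := by
        intro i
        have h1 : ‖t i ^ n - b i‖ = ‖1 - t i ^ n * conj (b i)‖ := by
          have : t i ^ n - b i = -(b i * (1 - t i ^ n * conj (b i))) := by
            have := hbb i
            linear_combination (-(t i ^ n)) * this
          rw [this, norm_neg, norm_mul, hb i, one_mul]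
        have hn : ‖t i ^ n * conj (b i)‖ = 1 := by
          rw [norm_mul, norm_pow, ht i, RCLike.norm_conj, hb i]
          norm_num
        have h2 := parallelogram_law_with_norm ℝ (1 : ℂ) (t i ^ n * conj (b i))
        rw [hn, norm_one] at h2
        rw [h1, norm_div, div_pow]
        norm_num at h2 ⊢
        nlinarith
      have hle1 : ∀ i, ‖(1 + t i ^ n * conj (b i)) / 2‖ ^ 2 ≤ 1 := by
        intro i
        rw [hw i]
        nlinarith [norm_nonneg (t i ^ n - b i)]
      have hq0 : ‖(1 + t i0 ^ n * conj (b i0)) / 2‖ ^ 2 ≤ q := by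
        rw [hw i0, hq]
        have : η ^ 2 ≤ ‖t i0 ^ n - b i0‖ ^ 2 := by
          apply pow_le_pow_left₀ hη.le hi0
        linarith
      have h3 : ‖G n‖ ^ 2 = (∏ i, ‖(1 + t i ^ n * conj (b i)) / 2‖ ^ 2) ^ M := by
        simp only [G, norm_prod, norm_pow]
        rw [Finset.prod_pow, ← pow_mul, mul_comm, pow_mul, Finset.prod_pow]
      rw [h3]
      apply pow_le_pow_left₀ (Finset.prod_nonneg fun i _ => by positivity)
      rw [← Finset.mul_prod_erase Finset.univ _ (Finset.mem_univ i0)]
      calc ‖(1 + t i0 ^ n * conj (b i0)) / 2‖ ^ 2 *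
            ∏ i ∈ Finset.univ.erase i0, ‖(1 + t i ^ n * conj (b i)) / 2‖ ^ 2
          ≤ ‖(1 + t i0 ^ n * conj (b i0)) / 2‖ ^ 2 * 1 := by
            apply mul_le_mul_of_nonneg_left _ (by positivity)
            exact Finset.prod_le_one (fun i _ => by positivity) (fun i _ => hle1 i)
        _ ≤ q := by rw [mul_one]; exact hq0
    -- expansion of the square
    have hsq : ∀ n, ((‖G n‖ ^ 2 : ℝ) : ℂ) = ∑ k ∈ P, ∑ l ∈ P,
        ((c k * c l : ℝ) : ℂ) * (conj (B k) * B l) * (T k * conj (T l)) ^ n := by
      intro n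
      rw [← Complex.normSq_eq_norm_sq, ← Complex.mul_conj, hG n, map_sum, Finset.sum_mul_sum]
      refine Finset.sum_congr rfl fun k _ => Finset.sum_congr rfl fun l _ => ?_
      simp only [map_mul, map_pow, Complex.conj_ofReal, Complex.conj_conj]
      push_cast
      ring
    -- limit of the averages
    have hlim : Tendsto (fun N : ℕ => (∑ n ∈ Finset.range N, ((‖G n‖ ^ 2 : ℝ) : ℂ)) / (N : ℂ)) atTop
        (𝓝 (∑ k ∈ P, ∑ l ∈ P, ((c k * c l : ℝ) : ℂ) * (conj (B k) * B l) *
          (if T k * conj (T l) = 1 then 1 else 0))) := by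
      have h1 : ∀ N : ℕ, (∑ n ∈ Finset.range N, ((‖G n‖ ^ 2 : ℝ) : ℂ)) / (N : ℂ) =
          ∑ k ∈ P, ∑ l ∈ P, ((c k * c l : ℝ) : ℂ) * (conj (B k) * B l) *
            ((∑ n ∈ Finset.range N, (T k * conj (T l)) ^ n) / (N : ℂ)) := by
        intro N
        simp only [hsq]
        rw [Finset.sum_comm, Finset.sum_div]
        refine Finset.sum_congr rfl fun k _ => ?_
        rw [Finset.sum_comm, Finset.sum_div]
        refine Finset.sum_congr rfl fun l _ => ?_
        rw [← Finset.mul_sum]
        ring
      simp only [h1]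
      refine tendsto_finsetSum _ fun k _ => tendsto_finsetSum _ fun l _ => ?_
      refine Tendsto.const_mul _ (tendsto_avg_pow _ ?_)
      rw [norm_mul, RCLike.norm_conj, hT1, hT1, one_mul]
    -- evaluation of the limit
    have hval : (∑ k ∈ P, ∑ l ∈ P, ((c k * c l : ℝ) : ℂ) * (conj (B k) * B l) *
          (if T k * conj (T l) = 1 then 1 else 0)) =
        ((∑ k ∈ P, ∑ l ∈ P, (if T k = T l then c k * c l else 0) : ℝ) : ℂ) := by
      push_cast
      refine Finset.sum_congr rfl fun k _ => Finset.sum_congr rfl fun l _ => ?_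
      have hiff : T k * conj (T l) = 1 ↔ T k = T l := by
        constructor
        · intro hh
          have := hTT l
          calc T k = T k * (T l * conj (T l)) := by rw [this, mul_one]
            _ = (T k * conj (T l)) * T l := by ring
            _ = T l := by rw [hh, one_mul]
        · intro hh
          rw [hh]
          exact hTT l
      by_cases hTk : T k = T l
      · rw [if_pos (hiff.2 hTk), if_pos hTk, mul_one]
        have hBB : B k = B l := by
          have h1 : ∏ i, t i ^ ((k i : ℤ) - (l i : ℤ)) = 1 := by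
            have : ∀ i, t i ^ ((k i : ℤ) - (l i : ℤ)) = t i ^ k i / t i ^ l i := by
              intro i
              rw [zpow_sub₀ (ht0 i), zpow_natCast, zpow_natCast]
            simp only [this, Finset.prod_div_distrib]
            change T k / T l = 1
            rw [hTk, div_self]
            intro h0
            have := hT1 l
            rw [h0, norm_zero] at this
            norm_num at this
          have h2 := h _ h1
          have : ∀ i, b i ^ ((k i : ℤ) - (l i : ℤ)) = b i ^ k i / b i ^ l i := by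
            intro i
            rw [zpow_sub₀ (hb0 i), zpow_natCast, zpow_natCast]
          simp only [this, Finset.prod_div_distrib] at h2
          exact (div_eq_one_iff_eq (Finset.prod_ne_zero_iff.2 fun i _ => pow_ne_zero _ (hb0 i))).1 h2
        rw [hBB, mul_comm (conj (B l)), hB1]
        push_cast
        ring
      · rw [if_neg (fun hh => hTk (hiff.1 hh)), if_neg hTk]
        simp
    -- compare
    have hreal : Tendsto (fun N : ℕ => (∑ n ∈ Finset.range N, ‖G n‖ ^ 2) / (N : ℝ)) atTop
        (𝓝 (∑ k ∈ P, ∑ l ∈ P, (if T k = T l then c k * c l else 0))) := by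
      rw [hval] at hlim
      have := (Complex.continuous_re.tendsto _).comp hlim
      rw [Complex.ofReal_re] at this
      refine this.congr fun N => ?_
      simp only [Function.comp]
      have : (∑ n ∈ Finset.range N, ((‖G n‖ ^ 2 : ℝ) : ℂ)) / (N : ℂ) =
          (((∑ n ∈ Finset.range N, ‖G n‖ ^ 2) / (N : ℝ) : ℝ) : ℂ) := by
        push_cast
        rfl
      rw [this, Complex.ofReal_re]
    have hle : ∑ k ∈ P, ∑ l ∈ P, (if T k = T l then c k * c l else 0) ≤ q ^ M := by
      refine le_of_tendsto hreal ?_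
      filter_upwards [eventually_gt_atTop 0] with N hN
      have hN' : (0 : ℝ) < N := by exact_mod_cast hN
      rw [div_le_iff₀ hN']
      calc ∑ n ∈ Finset.range N, ‖G n‖ ^ 2 ≤ ∑ _n ∈ Finset.range N, q ^ M :=
            Finset.sum_le_sum fun n _ => hGle n
        _ = q ^ M * N := by rw [Finset.sum_const, Finset.card_range, nsmul_eq_mul, mul_comm]
    have hdiag : ∑ k ∈ P, c k ^ 2 ≤ ∑ k ∈ P, ∑ l ∈ P, (if T k = T l then c k * c l else 0) := by
      refine Finset.sum_le_sum fun k hk => ?_
      have h0 : ∀ l ∈ P, 0 ≤ (if T k = T l then c k * c l else 0) := by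
        intro l _
        split_ifs
        · exact mul_nonneg (hc0 k) (hc0 l)
        · exact le_rfl
      calc c k ^ 2 = (if T k = T k then c k * c k else 0) := by rw [if_pos rfl, sq]
        _ ≤ _ := Finset.single_le_sum h0 hk
    have hcs : (1 : ℝ) ≤ (P.card : ℝ) * ∑ k ∈ P, c k ^ 2 := by
      have := sq_sum_le_card_mul_sum_sq (s := P) (f := c)
      rw [hc1] at this
      linarith
    have hPc : (P.card : ℝ) = ((M : ℝ) + 1) ^ Fintype.card ι := by
      simp only [P, Fintype.card_piFinset, Finset.card_range, Finset.prod_const, Finset.card_univ]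
      push_cast
      rfl
    rw [hPc] at hcs
    calc (1 : ℝ) ≤ ((M : ℝ) + 1) ^ Fintype.card ι * ∑ k ∈ P, c k ^ 2 := hcs
      _ ≤ ((M : ℝ) + 1) ^ Fintype.card ι * q ^ M := by
        apply mul_le_mul_of_nonneg_left (hdiag.trans hle) (by positivity)
  -- conclusion
  have hq1 : q < 1 := by
    rw [hq]
    have : 0 < η ^ 2 := by positivity
    linarith
  have hqpos : 0 < q := by
    by_contra hneg
    have h1 := key 1
    have h2 : ((1 : ℕ) : ℝ) + 1 = 2 := by norm_num
    rw [h2, pow_one] at h1
    have h3 : (0 : ℝ) < 2 ^ Fintype.card ι := by positivity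
    nlinarith
  have hlim := tendsto_pow_const_mul_const_pow_of_abs_lt_one (Fintype.card ι)
    (show |q| < 1 by rw [abs_of_pos hqpos]; exact hq1)
  have hlim2 := hlim.comp (tendsto_add_atTop_nat 1)
  have hge : ∀ M : ℕ, q ≤ ((fun n : ℕ => (n : ℝ) ^ Fintype.card ι * q ^ n) ∘ fun a => a + 1) M := by
    intro M
    simp only [Function.comp]
    push_cast
    rw [pow_succ]
    have := key M
    nlinarith
  have := ge_of_tendsto' hlim2 hge
  linarith

end Pool.Agent.Lib.MP_045051_co.Quad
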