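import Pool.Agent.Lib.MP_045051_co.Quad.Level2

/-!
Level 2: choice of the power `n`.
-/

set_option autoImplicit false

open scoped BigOperators ComplexConjugate

namespace Pool.Agent.Lib.MP_045051_co.Quad

/-- Kronecker's theorem with a common phase -/
theorem exists_power (z : Fin 4 → ℂ) (hz : ∀ j, ‖z j‖ = 1) (b : Fin 4 → ℂ)
    (hb : ∀ j, ‖b j‖ = 1) (hrel : ∀ k, IsRel z k → ∏ j, b j ^ k j = 1) {η : ℝ} (hη : 0 < η) :
    ∃ (n : ℕ) (U0 : ℂ), ‖U0‖ = 1 ∧ ∀ j, ‖z j ^ n - U0 * b j‖ < η := by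
  have hz0 : ∀ j, z j ≠ 0 := fun j => z_ne_zero (hz j)
  have hb0 : ∀ j, b j ≠ 0 := fun j => z_ne_zero (hb j)
  obtain ⟨n, hn⟩ := kronecker (fun j => z j / z 3) (fun j => b j / b 3)
    (fun j => by rw [norm_div, hz, hz, div_one]) (fun j => by rw [norm_div, hb, hb, div_one])
    (by
      intro k hk
      set k' : Fin 4 → ℤ := fun j => if j = 3 then k 3 - ∑ i, k i else k j with hk'
      have hk0 : k' 0 = k 0 := rfl
      have hk1 : k' 1 = k 1 := rfl
      have hk2 : k' 2 = k 2 := rfl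
      have hk3 : k' 3 = k 3 - (k 0 + k 1 + k 2 + k 3) := by
        rw [← Fin.sum_univ_four]
        rfl
      have hsum : ∑ j, k' j = 0 := by
        rw [Fin.sum_univ_four, hk0, hk1, hk2, hk3]
        ring
      have hprod : ∀ w : Fin 4 → ℂ, (∀ j, w j ≠ 0) →
          ∏ j, (w j / w 3) ^ k j = ∏ j, w j ^ k' j := by
        intro w hw
        have h3 : w 3 ≠ 0 := hw 3
        rw [Fin.prod_univ_four, Fin.prod_univ_four, hk0, hk1, hk2, hk3, zpow_sub₀ h3,
          zpow_add₀ h3, zpow_add₀ h3, zpow_add₀ h3, div_zpow, div_zpow, div_zpow, div_self h3,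
          one_zpow]
        field_simp
      rw [hprod z hz0] at hk
      rw [hprod b hb0]
      exact hrel k' ⟨hsum, hk⟩) hη
  refine ⟨n, z 3 ^ n / b 3, by rw [norm_div, norm_pow, hz, hb]; norm_num, fun j => ?_⟩
  have h1 := hn j
  have e : z j ^ n - z 3 ^ n / b 3 * b j = z 3 ^ n * ((z j / z 3) ^ n - b j / b 3) := by
    have h3 := hz0 3
    have h4 := hb0 3
    rw [div_pow]
    field_simp
  rw [e, norm_mul, norm_pow, hz, one_pow, one_mul]
  exact h1

/-- Level 2. -/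
theorem level2 (z : Fin 4 → ℂ) (hz : ∀ j, ‖z j‖ = 1) (hinj : Function.Injective z)
    (H : Generic z) (mu : Fin 4 → ℝ) (hmu : ∑ j, mu j = 1) :
    ∃ c : Fin 4 → ℝ, ∑ j, c j = 0 ∧ ∑ j, (c j : ℂ) * z j = 0 ∧ ∃ n : ℕ, ∀ U : ℂ, ‖U‖ = 1 →
      ∀ C : ℝ,
        ¬ (∑ j, c j * kf (U * z j ^ n) C = 0 ∧ C + ∑ j, mu j * kf (U * z j ^ n) C = 0) ∧
        ¬ (∑ j, c j * kf (U * conj (z j) ^ n) C = 0 ∧
          C + ∑ j, mu j * kf (U * conj (z j) ^ n) C = 0) := by
  obtain ⟨c, x, y, hc0, hcz, h1, h2, h3, hy, hk⟩ := choice z hz hinj H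
  obtain ⟨κ1, hκ10, hκ11, hL1⟩ := level2_core c x y mu hc0 h1 h2 h3 hy hmu
  obtain ⟨κ2, hκ20, hκ21, hL2⟩ := level2_core c (fun j => - x j) (fun j => - y j) mu hc0
    (by simp only [mul_neg, Finset.sum_neg_distrib, h1, neg_zero])
    (by
      have : ∀ j, c j * (- x j) ^ 2 = c j * x j ^ 2 := fun j => by ring
      simp only [this, h2])
    (by
      have : ∀ j, c j * (- x j) ^ 3 = -(c j * x j ^ 3) := fun j => by ring
      simp only [this, Finset.sum_neg_distrib]
      exact neg_ne_zero.2 h3)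
    (by
      have : ∀ j, c j * (- x j) ^ 3 = -(c j * x j ^ 3) := fun j => by ring
      simp only [this, mul_neg, Finset.sum_neg_distrib, hy]
      ring) hmu
  set κ := min κ1 κ2 with hκ
  have hκ0 : 0 < κ := lt_min hκ10 hκ20
  set b : Fin 4 → ℂ := fun j => Complex.exp (Complex.I * ((κ * x j + κ ^ 3 * y j : ℝ) : ℂ)) with hb
  have hbn : ∀ j, ‖b j‖ = 1 := fun j => by
    simp only [hb]
    rw [mul_comm]
    exact Complex.norm_exp_ofReal_mul_I _
  obtain ⟨n, U0, hU0, hn⟩ := exists_power z hz b hbn (by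
    intro k hk'
    obtain ⟨k1, k2⟩ := hk k hk'
    have e : ∀ j, b j ^ k j =
        Complex.exp (Complex.I * (((k j : ℝ) * (κ * x j + κ ^ 3 * y j) : ℝ) : ℂ)) := fun j => by
      simp only [hb]
      rw [← Complex.exp_int_mul]
      congr 1
      push_cast
      ring
    simp only [e]
    rw [← Complex.exp_sum, ← Finset.mul_sum, ← Complex.ofReal_sum]
    have : ∑ j, (k j : ℝ) * (κ * x j + κ ^ 3 * y j) = 0 := by
      have e2 : ∀ j, (k j : ℝ) * (κ * x j + κ ^ 3 * y j) =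
          κ * ((k j : ℝ) * x j) + κ ^ 3 * ((k j : ℝ) * y j) := fun j => by ring
      simp only [e2]
      rw [Finset.sum_add_distrib, ← Finset.mul_sum, ← Finset.mul_sum, k1, k2]
      ring
    rw [this]
    simp) (η := κ ^ 4) (by positivity)
  refine ⟨c, hc0, hcz, n, fun U hU C => ⟨?_, ?_⟩⟩
  · exact hL1 κ hκ0 (min_le_left _ _) U0 (fun j => z j ^ n) hU0
      (fun j => by rw [norm_pow, hz, one_pow]) (fun j => (hn j).le) U hU C
  · refine hL2 κ hκ0 (min_le_right _ _) (conj U0) (fun j => conj (z j) ^ n)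
      (by rw [RCLike.norm_conj, hU0])
      (fun j => by rw [norm_pow, RCLike.norm_conj, hz, one_pow]) (fun j => ?_) U hU C
    have e : conj (z j) ^ n - conj U0 *
        Complex.exp (Complex.I * ((κ * (- x j) + κ ^ 3 * (- y j) : ℝ) : ℂ)) =
        conj (z j ^ n - U0 * b j) := by
      rw [map_sub, map_mul, map_pow]
      simp only [hb]
      rw [← Complex.exp_conj, map_mul, Complex.conj_I, Complex.conj_ofReal]
      congr 3
      push_cast
      ring
    rw [e, RCLike.norm_conj]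
    exact (hn j).le

end Pool.Agent.Lib.MP_045051_co.Quad
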