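import Pool.Agent.Lib.MP_045051_co.Quad.Comp
import Pool.Agent.Lib.MP_045051_co.Quad.Power
import Pool.Agent.Lib.MP_045051_co.Quad.Impl

/-!
Level 1: a continuous function without any level quadruple congruent to the given one.
-/

set_option autoImplicit false

open scoped BigOperators ComplexConjugate
open Filter Topology

namespace Pool.Agent.Lib.MP_045051_co.Quad

theorem level1 (z : Fin 4 → ℂ) (hz : ∀ j, ‖z j‖ = 1) (hinj : Function.Injective z)
    (H : Generic z) {h r : ℝ} (hr : 0 < r) :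
    ∃ f : (Fin 3 → ℝ) → ℝ, Continuous f ∧
      ∀ M, Orth M → ∀ v, ¬ ∀ j, f (app M (pt h r (z j))) = v := by
  by_contra hcon
  push Not at hcon
  obtain ⟨mu, hmu0, hmu1⟩ := bary z hz hinj 1 0
  obtain ⟨n1, hn10, hn11⟩ := bary z hz hinj 0 1
  obtain ⟨n2, hn20, hn21⟩ := bary z hz hinj 0 Complex.I
  obtain ⟨c, hc0, hc1, n, hlev⟩ := level2 z hz hinj H mu hmu0
  obtain ⟨δ, hδdef⟩ : ∃ δ : ℕ → ℝ, δ = fun l : ℕ => 1 / ((l : ℝ) + 1) := ⟨_, rfl⟩
  have hδ0 : ∀ l, 0 < δ l := fun l => by rw [hδdef]; positivity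
  have hδ : Tendsto δ atTop (𝓝 0) := by rw [hδdef]; exact tendsto_one_div_add_atTop_nhds_zero_nat
  have hζn : ∀ x, ‖zet r x ^ n‖ ≤ 1 := fun x => by
    rw [norm_pow]; exact pow_le_one₀ (norm_nonneg _) (zet_norm hr x)
  have hex : ∀ l, ∃ f : (Fin 3 → ℝ) → ℝ, Continuous f ∧
      ∀ x, f x + δ l * Kp h (δ l) (zet r x ^ n) (f x) = x 2 := fun l =>
    implicit (fun x : Fin 3 → ℝ => x 2) (continuous_apply 2)
      (fun x v => δ l * Kp h (δ l) (zet r x ^ n) v)
      (fun v => continuous_const.mul ((Kp_continuous h (δ l) v).comp ((zet_continuous hr).pow n)))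
      (fun x v v' => Kp_lip (hζn x) (hδ0 l) h v v')
  choose f hfc hfe using hex
  have hM : ∀ l, ∃ M, Orth M ∧ ∃ v, ∀ j, f l (app M (pt h r (z j))) = v :=
    fun l => hcon (f l) (hfc l)
  choose M hMO v hv using hM
  obtain ⟨ζ, hζ⟩ : ∃ ζ : ℕ → Fin 4 → ℂ, ∀ l j, ζ l j = zet r (app (M l) (pt h r (z j))) ^ n :=
    ⟨_, fun _ _ => rfl⟩
  obtain ⟨K, hK⟩ : ∃ K : ℕ → Fin 4 → ℝ, ∀ l j, K l j = Kp h (δ l) (ζ l j) (v l) :=
    ⟨_, fun _ _ => rfl⟩
  have hKb : ∀ l j, |K l j| ≤ 3 := fun l j => by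
    rw [hK, hζ]
    exact Kp_bd (hζn _) _ _ _
  have hE : ∀ l j, v l + δ l * K l j = app (M l) (pt h r (z j)) 2 := by
    intro l j
    have := hfe l (app (M l) (pt h r (z j)))
    rw [hv l j] at this
    rw [hK, hζ]
    exact this
  have hcK : ∀ l, ∑ j, c j * K l j = 0 := by
    intro l
    have h1 := comb z (M l) (K l) (hE l) c hc0 hc1
    simp only [Complex.zero_re, Complex.zero_im, mul_zero, add_zero, zero_mul, zero_add] at h1
    rcases mul_eq_zero.1 h1 with h2 | h2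
    · exact absurd h2 (hδ0 l).ne'
    · exact h2
  have hmuK : ∀ l, v l + δ l * ∑ j, mu j * K l j = M l 2 2 * h := by
    intro l
    have h1 := comb z (M l) (K l) (hE l) mu hmu0 hmu1
    simp only [Complex.zero_re, Complex.zero_im, mul_zero, add_zero, one_mul, zero_add] at h1
    exact h1
  have hn1K : ∀ l, δ l * ∑ j, n1 j * K l j = r * M l 2 0 := by
    intro l
    have h1 := comb z (M l) (K l) (hE l) n1 hn10 hn11
    simp only [Complex.one_re, Complex.one_im, mul_zero, add_zero, zero_mul, zero_add,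
      mul_one] at h1
    exact h1
  have hn2K : ∀ l, δ l * ∑ j, n2 j * K l j = r * M l 2 1 := by
    intro l
    have h1 := comb z (M l) (K l) (hE l) n2 hn20 hn21
    simp only [Complex.I_re, Complex.I_im, mul_zero, add_zero, zero_mul, zero_add,
      mul_one] at h1
    exact h1
  obtain ⟨φ, M0, C0, hφ, hM0, hMlim, hClim⟩ :=
    compactness M hMO (fun l => ∑ j, mu j * K l j) (fun l => sum_bd mu (K l) (hKb l))
  have hδφ : Tendsto (fun l => δ (φ l)) atTop (𝓝 0) := hδ.comp hφ.tendsto_atTop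
  have h20 : M0 2 0 = 0 := row_zero hMlim hδφ (fun l => sum_bd n1 (K (φ l)) (hKb (φ l))) hr 0
    (fun l => hn1K (φ l))
  have h21 : M0 2 1 = 0 := row_zero hMlim hδφ (fun l => sum_bd n2 (K (φ l)) (hKb (φ l))) hr 1
    (fun l => hn2K (φ l))
  obtain ⟨hε, p, hp, hrig⟩ := rigid hM0 h20 h21
  have hfast := last_fast (fun l => hMO (φ l)) hMlim hδφ (fun l => hδ0 (φ l))
    (fun l => sum_bd n1 (K (φ l)) (hKb (φ l))) (fun l => sum_bd n2 (K (φ l)) (hKb (φ l))) hr
    (fun l => hn1K (φ l)) (fun l => hn2K (φ l)) hε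
  have hvlim : Tendsto (fun l => (v (φ l) - M0 2 2 * h) / δ (φ l)) atTop (𝓝 (-C0)) := by
    have h1 := (hfast.mul_const h).sub hClim
    rw [zero_mul, zero_sub] at h1
    refine h1.congr fun l => ?_
    have h2 := hmuK (φ l)
    have h3 := (hδ0 (φ l)).ne'
    rw [eq_div_iff h3, sub_mul, div_mul_eq_mul_div, div_mul_cancel₀ _ h3]
    linear_combination -h2
  have happ : ∀ j, Tendsto (fun l => ζ (φ l) j) atTop
      (𝓝 (zet r (app M0 (pt h r (z j))) ^ n)) := by
    intro j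
    have h1 := app_tendsto hMlim (pt h r (z j))
    have h2 := (((zet_continuous hr).pow n).tendsto _).comp h1
    refine h2.congr fun l => ?_
    rw [hζ]
    rfl
  have hKlim : ∀ j, Tendsto (fun l => K (φ l) j) atTop
      (𝓝 (kf (zet r (app M0 (pt h r (z j))) ^ n) (-C0))) := by
    intro j
    have h1 := Kp_tendsto hε (fun l => δ (φ l)) (fun l => v (φ l)) (fun l => ζ (φ l) j) hδφ
      (fun l => hδ0 (φ l)) hvlim (happ j)
    refine h1.congr fun l => ?_
    rw [hK]
  have hlim1 : ∑ j, c j * kf (zet r (app M0 (pt h r (z j))) ^ n) (-C0) = 0 := by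
    have h1 : Tendsto (fun l => ∑ j, c j * K (φ l) j) atTop
        (𝓝 (∑ j, c j * kf (zet r (app M0 (pt h r (z j))) ^ n) (-C0))) :=
      tendsto_finsetSum _ fun j _ => (hKlim j).const_mul _
    simp only [hcK] at h1
    exact tendsto_nhds_unique h1 tendsto_const_nhds
  have hlim2 : -C0 + ∑ j, mu j * kf (zet r (app M0 (pt h r (z j))) ^ n) (-C0) = 0 := by
    have h1 : Tendsto (fun l => ∑ j, mu j * K (φ l) j) atTop
        (𝓝 (∑ j, mu j * kf (zet r (app M0 (pt h r (z j))) ^ n) (-C0))) :=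
      tendsto_finsetSum _ fun j _ => (hKlim j).const_mul _
    rw [tendsto_nhds_unique h1 hClim]
    ring
  have hpn : ‖p ^ n‖ = 1 := by rw [norm_pow, hp, one_pow]
  rcases hrig with hrig | hrig
  · have hzz : ∀ j, zet r (app M0 (pt h r (z j))) ^ n = p ^ n * z j ^ n := by
      intro j
      rw [zet_eq hr (p := p * z j) (by rw [norm_mul, hp, hz, one_mul]) (hrig h r (z j)), mul_pow]
    simp only [hzz] at hlim1 hlim2
    exact (hlev (p ^ n) hpn (-C0)).1 ⟨hlim1, hlim2⟩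
  · have hzz : ∀ j, zet r (app M0 (pt h r (z j))) ^ n = p ^ n * conj (z j) ^ n := by
      intro j
      rw [zet_eq hr (p := p * conj (z j)) (by rw [norm_mul, hp, RCLike.norm_conj, hz, one_mul])
        (hrig h r (z j)), mul_pow]
    simp only [hzz] at hlim1 hlim2
    exact (hlev (p ^ n) hpn (-C0)).2 ⟨hlim1, hlim2⟩

end Pool.Agent.Lib.MP_045051_co.Quad
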