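import Pool.Agent.Lib.MP_045051_co.Quad.Kf
import Pool.Agent.Lib.MP_045051_co.Quad.Choice
import Pool.Agent.Lib.MP_045051_co.Quad.Kron

/-!
Level 2: the limit problem has no solution for a suitable power `n`.
-/

set_option autoImplicit false

open scoped BigOperators ComplexConjugate

namespace Pool.Agent.Lib.MP_045051_co.Quad

theorem norm_w_le (X Y : ℂ) {κ : ℝ} (h0 : 0 ≤ κ) (h1 : κ ≤ 1) :
    ‖(κ : ℂ) * X + (κ : ℂ) ^ 3 * Y‖ ≤ κ * (‖X‖ + ‖Y‖) := by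
  refine (norm_add_le _ _).trans ?_
  rw [norm_mul, norm_mul, norm_pow, Complex.norm_real, Real.norm_eq_abs, abs_of_nonneg h0]
  have h2 : κ ^ 3 ≤ κ := by
    calc κ ^ 3 ≤ κ ^ 1 := pow_le_pow_of_le_one h0 h1 (by norm_num)
      _ = κ := pow_one κ
  nlinarith [norm_nonneg Y]

theorem exp_one (X Y : ℂ) : ∃ M : ℝ, 0 ≤ M ∧ ∀ κ : ℝ, 0 ≤ κ → κ ≤ 1 →
    ‖Complex.exp ((κ : ℂ) * X + (κ : ℂ) ^ 3 * Y) - 1‖ ≤ M * κ := by
  refine ⟨(‖X‖ + ‖Y‖) * Real.exp (‖X‖ + ‖Y‖), by positivity, fun κ h0 h1 => ?_⟩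
  have hw := norm_w_le X Y h0 h1
  have h := Complex.norm_exp_sub_sum_le_norm_mul_exp ((κ : ℂ) * X + (κ : ℂ) ^ 3 * Y) 1
  simp only [Finset.sum_range_one, pow_zero, Nat.factorial_zero, Nat.cast_one, div_one,
    pow_one] at h
  refine h.trans ?_
  have h2 : ‖(κ : ℂ) * X + (κ : ℂ) ^ 3 * Y‖ ≤ ‖X‖ + ‖Y‖ := by
    refine hw.trans ?_
    have : 0 ≤ ‖X‖ + ‖Y‖ := by positivity
    nlinarith
  calc _ ≤ κ * (‖X‖ + ‖Y‖) * Real.exp (‖X‖ + ‖Y‖) :=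
        mul_le_mul hw (Real.exp_le_exp.2 h2) (Real.exp_pos _).le (by positivity)
    _ = _ := by ring

theorem exp_taylor (X Y : ℂ) : ∃ M : ℝ, 0 ≤ M ∧ ∀ κ : ℝ, 0 ≤ κ → κ ≤ 1 →
    ‖Complex.exp ((κ : ℂ) * X + (κ : ℂ) ^ 3 * Y) -
      (1 + (κ : ℂ) * X + (κ : ℂ) ^ 2 * (X ^ 2 / 2) + (κ : ℂ) ^ 3 * (Y + X ^ 3 / 6))‖ ≤
      M * κ ^ 4 := by
  refine ⟨(‖X‖ + ‖Y‖) ^ 4 * Real.exp (‖X‖ + ‖Y‖) + (‖X * Y‖ + ‖Y ^ 2 / 2‖ + ‖X ^ 2 * Y / 2‖ +
    ‖X * Y ^ 2 / 2‖ + ‖Y ^ 3 / 6‖), by positivity, fun κ h0 h1 => ?_⟩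
  have hw := norm_w_le X Y h0 h1
  set w : ℂ := (κ : ℂ) * X + (κ : ℂ) ^ 3 * Y with hwd
  have h := Complex.norm_exp_sub_sum_le_norm_mul_exp w 4
  have h2 : ‖w‖ ≤ ‖X‖ + ‖Y‖ := by
    refine hw.trans ?_
    have : 0 ≤ ‖X‖ + ‖Y‖ := by positivity
    nlinarith
  have h3 : ‖w‖ ^ 4 * Real.exp ‖w‖ ≤ (‖X‖ + ‖Y‖) ^ 4 * Real.exp (‖X‖ + ‖Y‖) * κ ^ 4 := by
    calc _ ≤ (κ * (‖X‖ + ‖Y‖)) ^ 4 * Real.exp (‖X‖ + ‖Y‖) :=
          mul_le_mul (pow_le_pow_left₀ (norm_nonneg _) hw 4) (Real.exp_le_exp.2 h2)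
            (Real.exp_pos _).le (by positivity)
      _ = _ := by ring
  have hκn : ‖(κ : ℂ)‖ = κ := by
    rw [Complex.norm_real, Real.norm_eq_abs, abs_of_nonneg h0]
  have hpw : ∀ (m : ℕ) (a : ℂ), ‖(κ : ℂ) ^ m * a‖ ≤ ‖a‖ := by
    intro m a
    rw [norm_mul, norm_pow, hκn]
    exact mul_le_of_le_one_left (norm_nonneg _) (pow_le_one₀ h0 h1)
  have h4 : ‖(κ : ℂ) ^ 4 * (X * Y + (κ : ℂ) ^ 2 * (Y ^ 2 / 2) + (κ : ℂ) ^ 1 * (X ^ 2 * Y / 2) +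
      (κ : ℂ) ^ 3 * (X * Y ^ 2 / 2) + (κ : ℂ) ^ 5 * (Y ^ 3 / 6))‖ ≤
      (‖X * Y‖ + ‖Y ^ 2 / 2‖ + ‖X ^ 2 * Y / 2‖ + ‖X * Y ^ 2 / 2‖ + ‖Y ^ 3 / 6‖) * κ ^ 4 := by
    rw [norm_mul, norm_pow, hκn, mul_comm]
    refine mul_le_mul_of_nonneg_right ?_ (by positivity)
    refine (norm_add_le _ _).trans (add_le_add ?_ (hpw 5 _))
    refine (norm_add_le _ _).trans (add_le_add ?_ (hpw 3 _))
    refine (norm_add_le _ _).trans (add_le_add ?_ (hpw 1 _))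
    exact (norm_add_le _ _).trans (add_le_add le_rfl (hpw 2 _))
  have e : Complex.exp w - (1 + (κ : ℂ) * X + (κ : ℂ) ^ 2 * (X ^ 2 / 2) +
      (κ : ℂ) ^ 3 * (Y + X ^ 3 / 6)) =
      (Complex.exp w - ∑ m ∈ Finset.range 4, w ^ m / (m.factorial : ℂ)) +
      (κ : ℂ) ^ 4 * (X * Y + (κ : ℂ) ^ 2 * (Y ^ 2 / 2) + (κ : ℂ) ^ 1 * (X ^ 2 * Y / 2) +
      (κ : ℂ) ^ 3 * (X * Y ^ 2 / 2) + (κ : ℂ) ^ 5 * (Y ^ 3 / 6)) := by
    simp only [Finset.sum_range_succ, Finset.sum_range_zero, Nat.factorial]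
    rw [hwd]
    push_cast
    ring
  rw [e]
  refine (norm_add_le _ _).trans ?_
  rw [add_mul]
  exact add_le_add (h.trans h3) h4

/-- the moments of the curve `b_j = exp (i (κ x_j + κ^3 y_j))` -/
theorem V_bound (c x y : Fin 4 → ℝ) (h0 : ∑ j, c j = 0) (h1 : ∑ j, c j * x j = 0)
    (h2 : ∑ j, c j * x j ^ 2 = 0) (hy : ∑ j, c j * y j = (∑ j, c j * x j ^ 3) / 6) (m : ℕ) :
    ∃ M : ℝ, 0 ≤ M ∧ ∀ κ : ℝ, 0 ≤ κ → κ ≤ 1 →
      ‖∑ j, (c j : ℂ) * Complex.exp (Complex.I * ((κ * x j + κ ^ 3 * y j : ℝ) : ℂ)) ^ m -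
        (κ : ℂ) ^ 3 * (Complex.I * ((m : ℂ) - m ^ 3) * ((∑ j, c j * x j ^ 3 : ℝ) : ℂ) / 6)‖ ≤
        M * κ ^ 4 := by
  choose M hM0 hM using fun j => exp_taylor (Complex.I * m * x j) (Complex.I * m * y j)
  refine ⟨∑ j, |c j| * M j, Finset.sum_nonneg fun j _ => mul_nonneg (abs_nonneg _) (hM0 j),
    fun κ hκ0 hκ1 => ?_⟩
  have hexp : ∀ j, Complex.exp (Complex.I * ((κ * x j + κ ^ 3 * y j : ℝ) : ℂ)) ^ m =
      Complex.exp ((κ : ℂ) * (Complex.I * m * x j) + (κ : ℂ) ^ 3 * (Complex.I * m * y j)) := by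
    intro j
    rw [← Complex.exp_nat_mul]
    congr 1
    push_cast
    ring
  have c0 : ∑ j, (c j : ℂ) = 0 := by exact_mod_cast h0
  have c1 : ∑ j, (c j : ℂ) * x j = 0 := by exact_mod_cast h1
  have c2 : ∑ j, (c j : ℂ) * (x j : ℂ) ^ 2 = 0 := by exact_mod_cast h2
  have cy : ∑ j, (c j : ℂ) * y j = (∑ j, (c j : ℂ) * (x j : ℂ) ^ 3) / 6 := by exact_mod_cast hy
  have hmain : ∑ j, (c j : ℂ) * (1 + (κ : ℂ) * (Complex.I * m * x j) +
      (κ : ℂ) ^ 2 * ((Complex.I * m * x j) ^ 2 / 2) +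
      (κ : ℂ) ^ 3 * (Complex.I * m * y j + (Complex.I * m * x j) ^ 3 / 6)) =
      (κ : ℂ) ^ 3 * (Complex.I * ((m : ℂ) - m ^ 3) * ((∑ j, c j * x j ^ 3 : ℝ) : ℂ) / 6) := by
    have e : ∀ j, (c j : ℂ) * (1 + (κ : ℂ) * (Complex.I * m * x j) +
      (κ : ℂ) ^ 2 * ((Complex.I * m * x j) ^ 2 / 2) +
      (κ : ℂ) ^ 3 * (Complex.I * m * y j + (Complex.I * m * x j) ^ 3 / 6)) =
        (c j : ℂ) + (κ : ℂ) * Complex.I * m * ((c j : ℂ) * x j) +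
        (κ : ℂ) ^ 2 * (Complex.I * m) ^ 2 / 2 * ((c j : ℂ) * (x j : ℂ) ^ 2) +
        (κ : ℂ) ^ 3 * (Complex.I * m) * ((c j : ℂ) * y j) +
        (κ : ℂ) ^ 3 * (Complex.I * m) ^ 3 / 6 * ((c j : ℂ) * (x j : ℂ) ^ 3) := fun j => by ring
    simp only [e]
    rw [Finset.sum_add_distrib, Finset.sum_add_distrib, Finset.sum_add_distrib,
      Finset.sum_add_distrib, ← Finset.mul_sum, ← Finset.mul_sum, ← Finset.mul_sum,
      ← Finset.mul_sum, c0, c1, c2, cy]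
    push_cast
    have hI : Complex.I ^ 3 = - Complex.I := by
      rw [pow_succ, Complex.I_sq]
      ring
    rw [mul_pow Complex.I (m : ℂ) 3, hI]
    ring
  rw [← hmain, ← Finset.sum_sub_distrib]
  refine (norm_sum_le _ _).trans ?_
  rw [Finset.sum_mul]
  refine Finset.sum_le_sum fun j _ => ?_
  rw [← mul_sub, norm_mul, Complex.norm_real, Real.norm_eq_abs, hexp j]
  calc _ ≤ |c j| * (M j * κ ^ 4) := mul_le_mul_of_nonneg_left (hM j κ hκ0 hκ1) (abs_nonneg _)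
    _ = _ := by ring

theorem level2_core (c x y mu : Fin 4 → ℝ) (h0 : ∑ j, c j = 0) (h1 : ∑ j, c j * x j = 0)
    (h2 : ∑ j, c j * x j ^ 2 = 0) (h3 : ∑ j, c j * x j ^ 3 ≠ 0)
    (hy : ∑ j, c j * y j = (∑ j, c j * x j ^ 3) / 6) (hmu : ∑ j, mu j = 1) :
    ∃ κ0 : ℝ, 0 < κ0 ∧ κ0 ≤ 1 ∧ ∀ κ : ℝ, 0 < κ → κ ≤ κ0 → ∀ (U0 : ℂ) (u : Fin 4 → ℂ),
      ‖U0‖ = 1 → (∀ j, ‖u j‖ = 1) →
      (∀ j, ‖u j - U0 * Complex.exp (Complex.I * ((κ * x j + κ ^ 3 * y j : ℝ) : ℂ))‖ ≤ κ ^ 4) →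
      ∀ U : ℂ, ‖U‖ = 1 → ∀ C : ℝ,
        ¬ (∑ j, c j * kf (U * u j) C = 0 ∧ C + ∑ j, mu j * kf (U * u j) C = 0) := by
  obtain ⟨M1, hM10, hM1⟩ := V_bound c x y h0 h1 h2 hy 1
  obtain ⟨M2, hM20, hM2⟩ := V_bound c x y h0 h1 h2 hy 2
  obtain ⟨M3, hM30, hM3⟩ := V_bound c x y h0 h1 h2 hy 3
  choose R hR0 hR using fun j => exp_one (Complex.I * x j) (Complex.I * y j)
  set S := ∑ j, c j * x j ^ 3 with hS
  set L : ℝ := ∑ j, |c j| with hL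
  have hL0 : 0 ≤ L := Finset.sum_nonneg fun j _ => abs_nonneg _
  set A : ℝ := ∑ j, |mu j| * (2 * (R j + 1)) with hA
  have hA0 : 0 ≤ A := Finset.sum_nonneg fun j _ =>
    mul_nonneg (abs_nonneg _) (by have := hR0 j; linarith)
  set e : ℝ := (M1 + L) + (M2 + 2 * L) + (M3 + 3 * L) with he
  have he0 : 0 ≤ e := by positivity
  have hSpos : 0 < |S| := abs_pos.2 h3
  refine ⟨min 1 (min (1 / (1000 * (A + 1))) (|S| / (120000 * (e + 1)))), by positivity,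
    min_le_left _ _, ?_⟩
  intro κ hκ0 hκle U0 u hU0 hu hclose U hU C hcon
  have hκ1 : κ ≤ 1 := hκle.trans (min_le_left _ _)
  have hκA : κ ≤ 1 / (1000 * (A + 1)) := hκle.trans ((min_le_right _ _).trans (min_le_left _ _))
  have hκS : κ ≤ |S| / (120000 * (e + 1)) :=
    hκle.trans ((min_le_right _ _).trans (min_le_right _ _))
  obtain ⟨hc1, hc2⟩ := hcon
  set b : Fin 4 → ℂ := fun j => Complex.exp (Complex.I * ((κ * x j + κ ^ 3 * y j : ℝ) : ℂ)) with hb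
  have hbn : ∀ j, ‖b j‖ = 1 := fun j => by
    simp only [hb]
    rw [mul_comm]
    exact Complex.norm_exp_ofReal_mul_I _
  have hclose' : ∀ j, ‖u j - U0 * b j‖ ≤ κ ^ 4 := hclose
  have hbexp : ∀ j, b j = Complex.exp ((κ : ℂ) * (Complex.I * x j) + (κ : ℂ) ^ 3 * (Complex.I * y j)) :=
    fun j => by
      simp only [hb]
      congr 1
      push_cast
      ring
  have hb1 : ∀ j, ‖b j - 1‖ ≤ R j * κ := fun j => by
    rw [hbexp j]
    exact hR j κ hκ0.le hκ1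
  have hκ4 : κ ^ 4 ≤ κ := by
    calc κ ^ 4 ≤ κ ^ 1 := pow_le_pow_of_le_one hκ0.le hκ1 (by norm_num)
      _ = κ := pow_one κ
  set W : ℂ := U * U0 with hW
  have hWn : ‖W‖ = 1 := by rw [hW, norm_mul, hU, hU0, one_mul]
  have hUu : ∀ j, ‖U * u j‖ = 1 := fun j => by rw [norm_mul, hU, hu, one_mul]
  -- second equation
  have hsec : |C + kf W C| ≤ 1 / 1000 := by
    have e1 : C + kf W C = ∑ j, mu j * (kf W C - kf (U * u j) C) := by
      have : ∑ j, mu j * (kf W C - kf (U * u j) C) =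
          (∑ j, mu j) * kf W C - ∑ j, mu j * kf (U * u j) C := by
        rw [Finset.sum_mul, ← Finset.sum_sub_distrib]
        exact Finset.sum_congr rfl fun j _ => by ring
      rw [this, hmu]
      linarith
    rw [e1]
    have h4 : |∑ j, mu j * (kf W C - kf (U * u j) C)| ≤ A * κ := by
      refine (Finset.abs_sum_le_sum_abs _ _).trans ?_
      rw [hA, Finset.sum_mul]
      refine Finset.sum_le_sum fun j _ => ?_
      rw [abs_mul, mul_assoc]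
      refine mul_le_mul_of_nonneg_left ?_ (abs_nonneg _)
      refine (kf_lip' hWn.le (hUu j).le C).trans ?_
      have h5 : ‖W - U * u j‖ ≤ (R j + 1) * κ := by
        have e2 : W - U * u j = -(U * (u j - U0 * b j)) - U * U0 * (b j - 1) := by
          rw [hW]
          ring
        rw [e2]
        refine (norm_sub_le _ _).trans ?_
        rw [norm_neg, norm_mul, norm_mul, norm_mul, hU, hU0, one_mul, one_mul, one_mul]
        have := hclose' j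
        have := hb1 j
        linarith
      linarith
    refine h4.trans ?_
    have h6 : A * κ ≤ (A + 1) * (1 / (1000 * (A + 1))) :=
      mul_le_mul (by linarith) hκA hκ0.le (by linarith)
    refine h6.trans (le_of_eq ?_)
    field_simp
  obtain ⟨hchi, hsign⟩ := sign_lemma hWn hsec
  -- powers
  have hp : ∀ (m : ℕ) (Mm : ℝ), 1 ≤ m → m ≤ 3 →
      (‖∑ j, (c j : ℂ) * b j ^ m - (κ : ℂ) ^ 3 * (Complex.I * ((m : ℂ) - m ^ 3) * (S : ℂ) / 6)‖ ≤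
        Mm * κ ^ 4) →
      ‖∑ j, (c j : ℂ) * (U * u j) ^ m -
        W ^ m * ((κ : ℂ) ^ 3 * (Complex.I * ((m : ℂ) - m ^ 3) * (S : ℂ) / 6))‖ ≤
        (Mm + m * L) * κ ^ 4 := by
    intro m Mm hm1 hm3 hMm
    have hdiff : ∀ j, ‖(U * u j) ^ m - (W * b j) ^ m‖ ≤ m * κ ^ 4 := by
      intro j
      have h7 : ‖U * u j - W * b j‖ ≤ κ ^ 4 := by
        have : U * u j - W * b j = U * (u j - U0 * b j) := by rw [hW]; ring
        rw [this, norm_mul, hU, one_mul]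
        exact hclose' j
      have h8 : ‖W * b j‖ ≤ 1 := by rw [norm_mul, hWn, hbn, one_mul]
      have h9 := (hUu j).le
      interval_cases m
      · simpa using h7
      · refine (norm_sq_sub h9 h8).trans ?_
        push_cast
        linarith
      · refine (norm_cube_sub h9 h8).trans ?_
        push_cast
        linarith
    have e3 : ∑ j, (c j : ℂ) * (U * u j) ^ m -
        W ^ m * ((κ : ℂ) ^ 3 * (Complex.I * ((m : ℂ) - m ^ 3) * (S : ℂ) / 6)) =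
        W ^ m * (∑ j, (c j : ℂ) * b j ^ m -
          (κ : ℂ) ^ 3 * (Complex.I * ((m : ℂ) - m ^ 3) * (S : ℂ) / 6)) +
        ∑ j, (c j : ℂ) * ((U * u j) ^ m - (W * b j) ^ m) := by
      have : ∑ j, (c j : ℂ) * ((U * u j) ^ m - (W * b j) ^ m) =
          ∑ j, (c j : ℂ) * (U * u j) ^ m - W ^ m * ∑ j, (c j : ℂ) * b j ^ m := by
        rw [Finset.mul_sum, ← Finset.sum_sub_distrib]
        refine Finset.sum_congr rfl fun j _ => ?_
        rw [mul_pow W]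
        ring
      rw [this]
      ring
    rw [e3]
    refine (norm_add_le _ _).trans ?_
    rw [norm_mul, norm_pow, hWn, one_pow, one_mul, add_mul]
    refine add_le_add hMm ((norm_sum_le _ _).trans ?_)
    rw [hL, Finset.mul_sum, Finset.sum_mul]
    refine Finset.sum_le_sum fun j _ => ?_
    rw [norm_mul, Complex.norm_real, Real.norm_eq_abs]
    calc |c j| * ‖(U * u j) ^ m - (W * b j) ^ m‖ ≤ |c j| * (m * κ ^ 4) :=
          mul_le_mul_of_nonneg_left (hdiff j) (abs_nonneg _)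
      _ = m * |c j| * κ ^ 4 := by ring
  have g1 := hp 1 M1 le_rfl (by norm_num) (hM1 κ hκ0.le hκ1)
  have g2 := hp 2 M2 (by norm_num) (by norm_num) (hM2 κ hκ0.le hκ1)
  have g3 := hp 3 M3 (by norm_num) le_rfl (hM3 κ hκ0.le hκ1)
  set v1 : ℂ := ∑ j, (c j : ℂ) * (U * u j) ^ 1 with hv1
  set v2 : ℂ := ∑ j, (c j : ℂ) * (U * u j) ^ 2 with hv2
  set v3 : ℂ := ∑ j, (c j : ℂ) * (U * u j) ^ 3 with hv3
  -- first equation
  have hfirst : 0 = -v1.re - (2 * cl C ^ 2 - 1) * v2.im / 6000 -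
      (4 * cl C ^ 3 - 3 * cl C) * v3.im / 24000 := by
    rw [← hc1, hv1, hv2, hv3, Complex.re_sum, Complex.im_sum, Complex.im_sum]
    simp only [Complex.re_ofReal_mul, Complex.im_ofReal_mul, pow_one]
    simp only [kf, hchi, one_mul, br]
    rw [Finset.mul_sum, Finset.mul_sum, Finset.sum_div, Finset.sum_div, ← Finset.sum_neg_distrib,
      ← Finset.sum_sub_distrib, ← Finset.sum_sub_distrib]
    exact Finset.sum_congr rfl fun j _ => by ring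
  have a1 : |v1.re| ≤ (M1 + L) * κ ^ 4 := by
    have : ‖v1‖ ≤ (M1 + L) * κ ^ 4 := by
      have h5 : W ^ 1 * ((κ : ℂ) ^ 3 * (Complex.I * (((1 : ℕ) : ℂ) - ((1 : ℕ) : ℂ) ^ 3) *
          (S : ℂ) / 6)) = 0 := by
        push_cast
        ring
      rw [h5, sub_zero] at g1
      simpa using g1
    exact (Complex.abs_re_le_norm _).trans this
  have a2 : |v2.im + κ ^ 3 * S * (W ^ 2).re| ≤ (M2 + 2 * L) * κ ^ 4 := by
    have h5 : (v2 - W ^ 2 * ((κ : ℂ) ^ 3 * (Complex.I * (((2 : ℕ) : ℂ) - ((2 : ℕ) : ℂ) ^ 3) *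
          (S : ℂ) / 6))).im = v2.im + κ ^ 3 * S * (W ^ 2).re := by
      have h6 : W ^ 2 * ((κ : ℂ) ^ 3 * (Complex.I * (((2 : ℕ) : ℂ) - ((2 : ℕ) : ℂ) ^ 3) *
          (S : ℂ) / 6)) = ((κ ^ 3 * S : ℝ) : ℂ) * (-(Complex.I * W ^ 2)) := by
        push_cast
        ring
      rw [h6, Complex.sub_im, Complex.im_ofReal_mul, Complex.neg_im, Complex.I_mul_im]
      ring
    rw [← h5]
    exact (Complex.abs_im_le_norm _).trans (by exact_mod_cast g2)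
  have a3 : |v3.im + 4 * (κ ^ 3 * S * (W ^ 3).re)| ≤ (M3 + 3 * L) * κ ^ 4 := by
    have h5 : (v3 - W ^ 3 * ((κ : ℂ) ^ 3 * (Complex.I * (((3 : ℕ) : ℂ) - ((3 : ℕ) : ℂ) ^ 3) *
          (S : ℂ) / 6))).im = v3.im + 4 * (κ ^ 3 * S * (W ^ 3).re) := by
      have h6 : W ^ 3 * ((κ : ℂ) ^ 3 * (Complex.I * (((3 : ℕ) : ℂ) - ((3 : ℕ) : ℂ) ^ 3) *
          (S : ℂ) / 6)) = ((4 * (κ ^ 3 * S) : ℝ) : ℂ) * (-(Complex.I * W ^ 3)) := by
        push_cast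
        ring
      rw [h6, Complex.sub_im, Complex.im_ofReal_mul, Complex.neg_im, Complex.I_mul_im]
      ring
    rw [← h5]
    exact (Complex.abs_im_le_norm _).trans (by exact_mod_cast g3)
  have b2 : |(2 * cl C ^ 2 - 1) * (v2.im + κ ^ 3 * S * (W ^ 2).re)| ≤
      7 * ((M2 + 2 * L) * κ ^ 4) := by
    rw [abs_mul]
    exact mul_le_mul (s2_bd C) a2 (abs_nonneg _) (by norm_num)
  have b3 : |(4 * cl C ^ 3 - 3 * cl C) * (v3.im + 4 * (κ ^ 3 * S * (W ^ 3).re))| ≤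
      26 * ((M3 + 3 * L) * κ ^ 4) := by
    rw [abs_mul]
    exact mul_le_mul (s3_bd C) a3 (abs_nonneg _) (by norm_num)
  set Q := (2 * cl C ^ 2 - 1) * (W ^ 2).re + (4 * cl C ^ 3 - 3 * cl C) * (W ^ 3).re with hQ
  have hmain : κ ^ 3 * S * Q / 6000 = v1.re +
      (2 * cl C ^ 2 - 1) * (v2.im + κ ^ 3 * S * (W ^ 2).re) / 6000 +
      (4 * cl C ^ 3 - 3 * cl C) * (v3.im + 4 * (κ ^ 3 * S * (W ^ 3).re)) / 24000 := by
    rw [hQ]
    linarith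
  have hκ3 : 0 < κ ^ 3 := by positivity
  have hκ4' : 0 < κ ^ 4 := by positivity
  have hle : |κ ^ 3 * S * Q / 6000| ≤ e * κ ^ 4 := by
    rw [hmain]
    have hP2 : 0 ≤ (M2 + 2 * L) * κ ^ 4 := by positivity
    have hP3 : 0 ≤ (M3 + 3 * L) * κ ^ 4 := by positivity
    rw [abs_le] at a1 b2 b3 ⊢
    rw [he]
    constructor <;> nlinarith [a1.1, a1.2, b2.1, b2.2, b3.1, b3.2]
  have hge : κ ^ 3 * |S| * (1 / 10) / 6000 ≤ |κ ^ 3 * S * Q / 6000| := by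
    rw [abs_div, abs_mul, abs_mul, abs_of_pos hκ3, abs_of_pos (by norm_num : (0 : ℝ) < 6000)]
    refine div_le_div_of_nonneg_right ?_ (by norm_num)
    refine mul_le_mul_of_nonneg_left ?_ (by positivity)
    exact hsign.trans (le_abs_self _)
  have hfin : κ ^ 3 * |S| * (1 / 10) / 6000 ≤ e * κ ^ 4 := hge.trans hle
  have h10 : |S| ≤ 60000 * e * κ := by
    have : κ ^ 3 * |S| ≤ κ ^ 3 * (60000 * e * κ) := by nlinarith
    exact le_of_mul_le_mul_left this hκ3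
  have h11 : (120000 * (e + 1)) * κ ≤ |S| := by
    rw [le_div_iff₀ (by positivity)] at hκS
    linarith
  nlinarith

end Pool.Agent.Lib.MP_045051_co.Quad
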