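import Pool.Agent.Lib.MP_045051_co.Quad.Kf

/-!
Orthogonal `3 × 3` matrices, the plane coordinate, limits of the perturbation.
-/

set_option autoImplicit false

open scoped BigOperators ComplexConjugate
open Filter Topology

namespace Pool.Agent.Lib.MP_045051_co.Quad

/-- orthogonal matrices -/
def Orth (M : Fin 3 → Fin 3 → ℝ) : Prop := ∀ k l, ∑ i, M i k * M i l = if k = l then 1 else 0

/-- matrix times vector -/
def app (M : Fin 3 → Fin 3 → ℝ) (x : Fin 3 → ℝ) : Fin 3 → ℝ := fun i => ∑ k, M i k * x k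

/-- the point of height `h` over `r z` -/
noncomputable def pt (h r : ℝ) (z : ℂ) : Fin 3 → ℝ := ![r * z.re, r * z.im, h]

/-- plane coordinate -/
noncomputable def pl (x : Fin 3 → ℝ) : ℂ := (x 0 : ℂ) + (x 1 : ℂ) * Complex.I

/-- normalised plane coordinate -/
noncomputable def zet (r : ℝ) (x : Fin 3 → ℝ) : ℂ := pl x / ((max ‖pl x‖ (r / 2) : ℝ) : ℂ)

theorem pl_continuous : Continuous pl := by
  unfold pl
  fun_prop

theorem max_pos {r : ℝ} (hr : 0 < r) (x : Fin 3 → ℝ) : 0 < max ‖pl x‖ (r / 2) :=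
  lt_max_of_lt_right (by linarith)

theorem zet_continuous {r : ℝ} (hr : 0 < r) : Continuous (zet r) := by
  unfold zet
  refine pl_continuous.div ?_ ?_
  · exact Complex.continuous_ofReal.comp ((pl_continuous.norm).max continuous_const)
  · intro x
    have := max_pos hr x
    exact_mod_cast this.ne'

theorem zet_norm {r : ℝ} (hr : 0 < r) (x : Fin 3 → ℝ) : ‖zet r x‖ ≤ 1 := by
  unfold zet
  have := max_pos hr x
  rw [norm_div, Complex.norm_real, Real.norm_eq_abs, abs_of_pos this, div_le_one this]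
  exact le_max_left _ _

theorem zet_eq {r : ℝ} (hr : 0 < r) {x : Fin 3 → ℝ} {p : ℂ} (hp : ‖p‖ = 1) (hx : pl x = r * p) :
    zet r x = p := by
  unfold zet
  have h1 : ‖pl x‖ = r := by
    rw [hx, norm_mul, hp, mul_one, Complex.norm_real, Real.norm_eq_abs, abs_of_pos hr]
  rw [h1, max_eq_left (by linarith), hx]
  have : (r : ℂ) ≠ 0 := by exact_mod_cast hr.ne'
  field_simp

theorem orth_row {M : Fin 3 → Fin 3 → ℝ} (hM : Orth M) (i j : Fin 3) :
    ∑ k, M i k * M j k = if i = j then 1 else 0 := by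
  have h1 : (Matrix.of M).transpose * Matrix.of M = 1 := by
    ext k l
    rw [Matrix.mul_apply, Matrix.one_apply]
    exact hM k l
  have h2 : Matrix.of M * (Matrix.of M).transpose = 1 := mul_eq_one_comm.1 h1
  have h3 := congrFun (congrFun h2 i) j
  rw [Matrix.mul_apply, Matrix.one_apply] at h3
  exact h3

theorem orth_bd {M : Fin 3 → Fin 3 → ℝ} (hM : Orth M) (i k : Fin 3) : M i k ∈ Set.Icc (-1 : ℝ) 1 := by
  have h1 := hM k k
  rw [if_pos rfl] at h1
  have h2 : M i k * M i k ≤ ∑ i, M i k * M i k :=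
    Finset.single_le_sum (f := fun i => M i k * M i k) (fun i _ => mul_self_nonneg _)
      (Finset.mem_univ i)
  rw [h1] at h2
  have h3 : |M i k| ≤ 1 := abs_le_one_iff_mul_self_le_one.2 h2
  exact abs_le.1 h3

theorem rigid {M : Fin 3 → Fin 3 → ℝ} (hM : Orth M) (h20 : M 2 0 = 0) (h21 : M 2 1 = 0) :
    (M 2 2 = 1 ∨ M 2 2 = -1) ∧ ∃ p : ℂ, ‖p‖ = 1 ∧
      ((∀ h r z, pl (app M (pt h r z)) = r * (p * z)) ∨
        ∀ h r z, pl (app M (pt h r z)) = r * (p * conj z)) := by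
  have hr := orth_row hM 2 2
  rw [if_pos rfl, Fin.sum_univ_three, h20, h21] at hr
  have h22 : M 2 2 * M 2 2 = 1 := by linarith
  have c2 := hM 2 2
  rw [if_pos rfl, Fin.sum_univ_three] at c2
  have hz2 : M 0 2 * M 0 2 + M 1 2 * M 1 2 = 0 := by linarith
  have h02 : M 0 2 = 0 := (mul_self_add_mul_self_eq_zero.1 hz2).1
  have h12 : M 1 2 = 0 := (mul_self_add_mul_self_eq_zero.1 hz2).2
  have c0 := hM 0 0
  rw [if_pos rfl, Fin.sum_univ_three, h20] at c0
  have c1 := hM 1 1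
  rw [if_pos rfl, Fin.sum_univ_three, h21] at c1
  have c01 := hM 0 1
  rw [if_neg (by decide), Fin.sum_univ_three, h20] at c01
  set s := M 0 0 * M 1 1 - M 1 0 * M 0 1 with hs
  have hs2 : (s - 1) * (s + 1) = 0 := by
    have : s ^ 2 + (M 0 0 * M 0 1 + M 1 0 * M 1 1) ^ 2 =
        (M 0 0 * M 0 0 + M 1 0 * M 1 0) * (M 0 1 * M 0 1 + M 1 1 * M 1 1) := by
      rw [hs]
      ring
    have e1 : M 0 0 * M 0 1 + M 1 0 * M 1 1 = 0 := by linarith
    have e2 : M 0 0 * M 0 0 + M 1 0 * M 1 0 = 1 := by linarith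
    have e3 : M 0 1 * M 0 1 + M 1 1 * M 1 1 = 1 := by linarith
    rw [e1, e2, e3] at this
    linarith
  have hq1 : M 1 1 = s * M 0 0 := by
    have e1 : M 0 0 * M 0 1 = -(M 1 0 * M 1 1) := by linarith
    have e2 : M 0 0 * M 0 0 + M 1 0 * M 1 0 = 1 := by linarith
    calc M 1 1 = M 1 1 * (M 0 0 * M 0 0 + M 1 0 * M 1 0) := by rw [e2, mul_one]
      _ = s * M 0 0 := by rw [hs]; linear_combination (M 1 0) * e1
  have hq0 : M 0 1 = -(s * M 1 0) := by
    have e1 : M 1 0 * M 1 1 = -(M 0 0 * M 0 1) := by linarith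
    have e2 : M 0 0 * M 0 0 + M 1 0 * M 1 0 = 1 := by linarith
    calc M 0 1 = M 0 1 * (M 0 0 * M 0 0 + M 1 0 * M 1 0) := by rw [e2, mul_one]
      _ = -(s * M 1 0) := by rw [hs]; linear_combination (M 0 0) * e1
  refine ⟨?_, ?_⟩
  · have : (M 2 2 - 1) * (M 2 2 + 1) = 0 := by linarith
    rcases mul_eq_zero.1 this with h | h
    · left; linarith
    · right; linarith
  · refine ⟨⟨M 0 0, M 1 0⟩, ?_, ?_⟩
    · have h1 : ‖(⟨M 0 0, M 1 0⟩ : ℂ)‖ ^ 2 = 1 := by
        rw [← Complex.normSq_eq_norm_sq, Complex.normSq_mk]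
        linarith
      have h0 := norm_nonneg (⟨M 0 0, M 1 0⟩ : ℂ)
      exact (pow_eq_one_iff_of_nonneg h0 two_ne_zero).1 h1
    · have happ0 : ∀ h r z, app M (pt h r z) 0 = M 0 0 * (r * z.re) + M 0 1 * (r * z.im) := by
        intro h r z
        unfold app pt
        rw [Fin.sum_univ_three, h02]
        simp
      have happ1 : ∀ h r z, app M (pt h r z) 1 = M 1 0 * (r * z.re) + M 1 1 * (r * z.im) := by
        intro h r z
        unfold app pt
        rw [Fin.sum_univ_three, h12]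
        simp
      rcases mul_eq_zero.1 hs2 with h1 | h1
      · left
        have hs1 : s = 1 := by linarith
        rw [hs1] at hq0 hq1
        intro h r z
        unfold pl
        rw [happ0, happ1, hq0, hq1]
        apply Complex.ext <;> simp <;> ring
      · right
        have hs1 : s = -1 := by linarith
        rw [hs1] at hq0 hq1
        intro h r z
        unfold pl
        rw [happ0, happ1, hq0, hq1]
        apply Complex.ext <;> simp <;> ring

/-- the perturbation -/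
noncomputable def Kp (h δ : ℝ) (ζ : ℂ) (v : ℝ) : ℝ :=
  kf ζ ((v - h) / δ) + if h = 0 then 0 else kf ζ ((v + h) / δ)

theorem Kp_bd {ζ : ℂ} (hζ : ‖ζ‖ ≤ 1) (h δ v : ℝ) : |Kp h δ ζ v| ≤ 3 := by
  unfold Kp
  have h1 := kf_bd hζ ((v - h) / δ)
  have h2 := kf_bd hζ ((v + h) / δ)
  split_ifs
  · rw [add_zero]
    linarith
  · refine (abs_add_le _ _).trans ?_
    linarith

theorem Kp_lip {ζ : ℂ} (hζ : ‖ζ‖ ≤ 1) {δ : ℝ} (hδ : 0 < δ) (h v v' : ℝ) :
    |δ * Kp h δ ζ v - δ * Kp h δ ζ v'| ≤ 1 / 2 * |v - v'| := by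
  have h1 := kf_lip hζ ((v - h) / δ) ((v' - h) / δ)
  have h2 := kf_lip hζ ((v + h) / δ) ((v' + h) / δ)
  have e1 : (v - h) / δ - (v' - h) / δ = (v - v') / δ := by ring
  have e2 : (v + h) / δ - (v' + h) / δ = (v - v') / δ := by ring
  rw [e1, abs_div, abs_of_pos hδ] at h1
  rw [e2, abs_div, abs_of_pos hδ] at h2
  have h3 : |Kp h δ ζ v - Kp h δ ζ v'| ≤ 1 / 2 * (|v - v'| / δ) := by
    unfold Kp
    split_ifs
    · rw [add_zero, add_zero]
      have : 0 ≤ |v - v'| / δ := by positivity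
      linarith
    · have e3 : kf ζ ((v - h) / δ) + kf ζ ((v + h) / δ) -
          (kf ζ ((v' - h) / δ) + kf ζ ((v' + h) / δ)) =
          (kf ζ ((v - h) / δ) - kf ζ ((v' - h) / δ)) +
            (kf ζ ((v + h) / δ) - kf ζ ((v' + h) / δ)) := by ring
      rw [e3]
      refine (abs_add_le _ _).trans ?_
      linarith
  rw [← mul_sub, abs_mul, abs_of_pos hδ]
  calc δ * |Kp h δ ζ v - Kp h δ ζ v'| ≤ δ * (1 / 2 * (|v - v'| / δ)) :=
        mul_le_mul_of_nonneg_left h3 hδ.le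
    _ = 1 / 2 * |v - v'| := by field_simp

theorem Kp_continuous (h δ v : ℝ) : Continuous fun ζ : ℂ => Kp h δ ζ v := by
  unfold Kp
  have h1 : ∀ c : ℝ, Continuous fun ζ : ℂ => kf ζ c := fun c =>
    kf_continuous.comp (continuous_id.prodMk continuous_const)
  split_ifs
  · exact (h1 _).add continuous_const
  · exact (h1 _).add (h1 _)

theorem Kp_aux {ε h : ℝ} (hε : ε = 1 ∨ ε = -1) {v δ : ℝ} (ζ : ℂ) (_ : True)
    (hl : kf ζ ((v + ε * h) / δ) = 0) :
    kf ζ ((v - ε * h) / δ) = kf ζ ((v - h) / δ) + kf ζ ((v + h) / δ) := by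
  rcases hε with h1 | h1
  · rw [h1, one_mul] at hl
    rw [h1, one_mul, hl, add_zero]
  · have e1 : v - ε * h = v + h := by rw [h1]; ring
    have e2 : v + ε * h = v - h := by rw [h1]; ring
    rw [e2] at hl
    rw [e1, hl, zero_add]

theorem big_aux {v δ E C : ℝ} (h3 : 0 < δ) (h1 : |(v - E) / δ| < |C| + 1)
    (h2 : δ < 2 * |E| / (|C| + 14)) : 12 ≤ |(v + E) / δ| := by
  have e : (v + E) / δ = (v - E) / δ + 2 * E / δ := by
    rw [← add_div]
    congr 1
    ring
  have h4 : |C| + 14 ≤ |2 * E / δ| := by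
    rw [abs_div, abs_mul, abs_of_pos h3, abs_of_pos (by norm_num : (0 : ℝ) < 2)]
    rw [lt_div_iff₀ (by positivity)] at h2
    rw [le_div_iff₀ h3]
    linarith
  rw [e]
  have h5 : |2 * E / δ| ≤ |(v - E) / δ + 2 * E / δ| + |(v - E) / δ| := by
    have := abs_sub ((v - E) / δ + 2 * E / δ) ((v - E) / δ)
    rwa [add_sub_cancel_left] at this
  linarith

/-- limit of the perturbation -/
theorem Kp_tendsto {h C : ℝ} {ε : ℝ} (hε : ε = 1 ∨ ε = -1) (δ v : ℕ → ℝ) (ζ : ℕ → ℂ) {ζ0 : ℂ}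
    (hδ : Tendsto δ atTop (𝓝 0)) (hδ0 : ∀ l, 0 < δ l)
    (hv : Tendsto (fun l => (v l - ε * h) / δ l) atTop (𝓝 C)) (hζ : Tendsto ζ atTop (𝓝 ζ0)) :
    Tendsto (fun l => Kp h (δ l) (ζ l) (v l)) atTop (𝓝 (kf ζ0 C)) := by
  have hpair : Tendsto (fun l => (ζ l, (v l - ε * h) / δ l)) atTop (𝓝 (ζ0, C)) :=
    hζ.prodMk_nhds hv
  have hkc : Tendsto (fun p : ℂ × ℝ => kf p.1 p.2) (𝓝 (ζ0, C)) (𝓝 (kf ζ0 C)) :=
    kf_continuous.tendsto (ζ0, C)
  have hmain : Tendsto (fun l => kf (ζ l) ((v l - ε * h) / δ l)) atTop (𝓝 (kf ζ0 C)) := by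
    have h0 := hkc.comp hpair
    simp only [Function.comp_def] at h0
    exact h0
  by_cases hh : h = 0
  · have e : (fun l => Kp h (δ l) (ζ l) (v l)) = fun l => kf (ζ l) ((v l - ε * h) / δ l) := by
      funext l
      unfold Kp
      rw [if_pos hh, hh, mul_zero, add_zero]
    rw [e]
    exact hmain
  · have hε0 : ε ≠ 0 := by
      rcases hε with h | h <;> rw [h] <;> norm_num
    have hεh : 0 < |ε * h| := abs_pos.2 (mul_ne_zero hε0 hh)
    have hb : ∀ᶠ l in atTop, |(v l - ε * h) / δ l| < |C| + 1 :=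
      hv.abs.eventually_lt_const (lt_add_one _)
    have hpos : 0 < 2 * |ε * h| / (|C| + 14) := by positivity
    have hd : ∀ᶠ l in atTop, δ l < 2 * |ε * h| / (|C| + 14) := hδ.eventually_lt_const hpos
    have hev : ∀ᶠ l in atTop, kf (ζ l) ((v l - ε * h) / δ l) = Kp h (δ l) (ζ l) (v l) := by
      refine (hb.and hd).mono fun l hl => ?_
      have hz := kf_zero (ζ := ζ l) (big_aux (hδ0 l) hl.1 hl.2)
      have := Kp_aux hε (ζ l) trivial hz
      unfold Kp
      rw [if_neg hh]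
      exact this
    exact Tendsto.congr' hev hmain

end Pool.Agent.Lib.MP_045051_co.Quad
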